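import Pool.Agent.Q139.Baz.Tay

namespace Pool.Agent.Q139.Baz
open Finset

lemma taylor_hasSum {p : ℂ → ℂ} (hp : DifferentiableOn ℂ p (Metric.ball 0 1)) {z : ℂ}
    (hz : ‖z‖ < 1) : HasSum (fun k => tc p k * z ^ k) (p z) := by
  have h := Complex.hasSum_taylorSeries_on_ball hp (z := z) (by simpa using hz)
  have e : (fun n : ℕ => (n.factorial : ℂ)⁻¹ • (z - 0) ^ n • iteratedDeriv n p 0) =
      fun k => tc p k * z ^ k := by
    funext k
    simp only [tc, sub_zero, smul_eq_mul]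
    field_simp
  rw [e] at h
  exact h

/-- long truncations of the Taylor series on `|z| = R < 1` still have positive real part. -/
lemma exists_trunc {p : ℂ → ℂ} (hp : DifferentiableOn ℂ p (Metric.ball 0 1))
    (hpos : ∀ z ∈ Metric.ball (0 : ℂ) 1, 0 < (p z).re) {R : ℝ} (hR0 : 0 < R) (hR1 : R < 1)
    (n : ℕ) : ∃ M, n < M ∧ ∀ w : ℂ, ‖w‖ = 1 →
      0 ≤ (∑ k ∈ range M, tc p k * (R : ℂ) ^ k * w ^ k).re := by
  obtain ⟨a, ha⟩ : ∃ a : ℕ → ℂ, a = fun k => tc p k * (R : ℂ) ^ k := ⟨_, rfl⟩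
  have hRn : ∀ w : ℂ, ‖w‖ = 1 → ‖(R : ℂ) * w‖ < 1 := by
    intro w hw
    rw [norm_mul, hw, mul_one, Complex.norm_real, Real.norm_of_nonneg hR0.le]
    exact hR1
  have hsum : ∀ w : ℂ, ‖w‖ = 1 → HasSum (fun k => a k * w ^ k) (p (R * w)) := by
    intro w hw
    have h := taylor_hasSum hp (hRn w hw)
    have e : (fun k => tc p k * ((R : ℂ) * w) ^ k) = fun k => a k * w ^ k := by
      funext k
      rw [ha, mul_pow]; ring
    rw [e] at h
    exact h
  have hsa : Summable (fun k => ‖a k‖) := by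
    have h1 := (hsum 1 norm_one).summable
    simp only [one_pow, mul_one] at h1
    exact h1.norm
  -- minimum of Re p
  have hcont : ContinuousOn (fun w : ℂ => (p (R * w)).re) (Metric.sphere 0 1) := by
    apply Complex.continuous_re.comp_continuousOn
    apply hp.continuousOn.comp (by fun_prop)
    intro w hw
    rw [mem_sphere_zero_iff_norm] at hw
    rw [mem_ball_zero_iff]
    exact hRn w hw
  obtain ⟨w0, hw0, hmin⟩ := (isCompact_sphere (0 : ℂ) 1).exists_isMinOn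
    (NormedSpace.sphere_nonempty.2 zero_le_one) hcont
  have hε : 0 < (p (R * w0)).re := by
    apply hpos
    rw [mem_sphere_zero_iff_norm] at hw0
    rw [mem_ball_zero_iff]
    exact hRn w0 hw0
  have htail := tendsto_sum_nat_add (fun k => ‖a k‖)
  have hev := (htail.eventually (gt_mem_nhds hε)).and (Filter.eventually_gt_atTop n)
  obtain ⟨M, hM1, hM2⟩ := hev.exists
  refine ⟨M, hM2, ?_⟩
  intro w hw
  have h1 := hsum w hw
  have h2 : HasSum (fun k => a (k + M) * w ^ (k + M))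
      (p (R * w) - ∑ k ∈ range M, a k * w ^ k) := (hasSum_nat_add_iff' M).2 h1
  have h3 : ‖p (R * w) - ∑ k ∈ range M, a k * w ^ k‖ ≤ ∑' k, ‖a (k + M)‖ := by
    rw [← h2.tsum_eq]
    apply tsum_of_norm_bounded (g := fun k => ‖a (k + M)‖)
    · exact ((summable_nat_add_iff M).2 hsa).hasSum
    · intro k
      rw [norm_mul, norm_pow, hw, one_pow, mul_one]
  have h4 : (p (R * w0)).re ≤ (p (R * w)).re := by
    apply hmin
    rw [mem_sphere_zero_iff_norm]; exact hw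
  have h5 : (p (R * w)).re - (∑ k ∈ range M, a k * w ^ k).re ≤
      ‖p (R * w) - ∑ k ∈ range M, a k * w ^ k‖ := by
    rw [← Complex.sub_re]; exact Complex.re_le_norm _
  have h6 : ∑ k ∈ range M, tc p k * (R : ℂ) ^ k * w ^ k = ∑ k ∈ range M, a k * w ^ k := by
    rw [ha]
  rw [h6]
  have h7 : ∑' k, ‖a (k + M)‖ < (p (R * w0)).re := hM1
  linarith

lemma orth {N : ℕ} {ω : ℂ} (hω : IsPrimitiveRoot ω N) (hN : 0 < N) {a b : ℕ} (ha : a < N)
    (hb : b < N) : ∑ j : Fin N, (ω ^ (j : ℕ)) ^ a * ((starRingEnd ℂ) (ω ^ (j : ℕ))) ^ b =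
      if a = b then (N : ℂ) else 0 := by
  have hn : ‖ω‖ = 1 := Complex.norm_eq_one_of_pow_eq_one hω.pow_eq_one hN.ne'
  have hω0 : ω ≠ 0 := by
    intro h; rw [h, norm_zero] at hn; exact zero_ne_one hn
  have hc : (starRingEnd ℂ) ω = ω⁻¹ := (Complex.inv_eq_conj hn).symm
  have e : ∀ j : Fin N, (ω ^ (j : ℕ)) ^ a * ((starRingEnd ℂ) (ω ^ (j : ℕ))) ^ b =
      (ω ^ a * (ω⁻¹) ^ b) ^ (j : ℕ) := by
    intro j
    rw [map_pow, hc, mul_pow, ← pow_mul, ← pow_mul, ← pow_mul, ← pow_mul, mul_comm a, mul_comm b]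
  rw [Finset.sum_congr rfl (fun j _ => e j),
    Fin.sum_univ_eq_sum_range (fun j => (ω ^ a * (ω⁻¹) ^ b) ^ j) N]
  split_ifs with hab
  · subst hab
    have : ω ^ a * ω⁻¹ ^ a = 1 := by rw [← mul_pow, mul_inv_cancel₀ hω0, one_pow]
    simp only [this, one_pow, Finset.sum_const, card_range, nsmul_eq_mul, mul_one]
  · have hx : ω ^ a * ω⁻¹ ^ b ≠ 1 := by
      intro h
      apply hab
      apply hω.pow_inj ha hb
      have : ω ^ b * ω⁻¹ ^ b = 1 := by rw [← mul_pow, mul_inv_cancel₀ hω0, one_pow]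
      calc ω ^ a = ω ^ a * (ω ^ b * ω⁻¹ ^ b) := by rw [this, mul_one]
        _ = (ω ^ a * ω⁻¹ ^ b) * ω ^ b := by ring
        _ = ω ^ b := by rw [h, one_mul]
    rw [geom_sum_eq hx]
    have : (ω ^ a * ω⁻¹ ^ b) ^ N = 1 := by
      rw [mul_pow, ← pow_mul, ← pow_mul, mul_comm a, mul_comm b, pow_mul, pow_mul, inv_pow,
        hω.pow_eq_one]
      simp
    rw [this, sub_self, zero_div]

/-- the atoms. -/
theorem exists_atoms {p : ℂ → ℂ} (hp : DifferentiableOn ℂ p (Metric.ball 0 1)) (hp0 : p 0 = 1)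
    (hpos : ∀ z ∈ Metric.ball (0 : ℂ) 1, 0 < (p z).re) {R : ℝ} (hR0 : 0 < R) (hR1 : R < 1)
    (n : ℕ) : ∃ (N : ℕ) (μ : Fin N → ℝ) (ζ : Fin N → ℂ), Atoms μ ζ ∧
      ∀ k, 1 ≤ k → k ≤ n → ∑ i, (μ i : ℂ) * ζ i ^ k = tc p k * (R : ℂ) ^ k / 2 := by
  obtain ⟨M, hM, hq⟩ := exists_trunc hp hpos hR0 hR1 n
  have hN : 0 < 2 * M := by omega
  have hω := Complex.isPrimitiveRoot_exp (2 * M) hN.ne'
  obtain ⟨ω, hωd⟩ : ∃ ω, ω = Complex.exp (2 * Real.pi * Complex.I / ((2 * M : ℕ) : ℂ)) := ⟨_, rfl⟩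
  rw [← hωd] at hω
  have hn : ‖ω‖ = 1 := Complex.norm_eq_one_of_pow_eq_one hω.pow_eq_one hN.ne'
  obtain ⟨a, ha⟩ : ∃ a : ℕ → ℂ, a = fun k => tc p k * (R : ℂ) ^ k := ⟨_, rfl⟩
  have ha0 : a 0 = 1 := by rw [ha]; simp [tc_zero, hp0]
  obtain ⟨μ, hμ⟩ : ∃ μ : Fin (2 * M) → ℝ, μ = fun j : Fin (2 * M) => (1 / ((2 * M : ℕ) : ℝ)) *
      (∑ m ∈ range M, a m * ((starRingEnd ℂ) (ω ^ (j : ℕ))) ^ m).re := ⟨_, rfl⟩
  have hNC : ((2 * M : ℕ) : ℂ) ≠ 0 := by exact_mod_cast hN.ne'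
  have hμC : ∀ j, (μ j : ℂ) = (1 / (2 * ((2 * M : ℕ) : ℂ))) *
      (∑ m ∈ range M, a m * ((starRingEnd ℂ) (ω ^ (j : ℕ))) ^ m +
        ∑ m ∈ range M, (starRingEnd ℂ) (a m) * (ω ^ (j : ℕ)) ^ m) := by
    intro j
    rw [hμ]
    simp only
    rw [Complex.ofReal_mul, Complex.re_eq_add_conj]
    rw [map_sum]
    simp only [map_mul, map_pow, Complex.conj_conj]
    push_cast
    field_simp
  have hmom : ∀ k, k < M → ∑ j, (μ j : ℂ) * (ω ^ (j : ℕ)) ^ k =
      (a k + if k = 0 then (starRingEnd ℂ) (a 0) else 0) / 2 := by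
    intro k hk
    have h1 : ∑ j, (μ j : ℂ) * (ω ^ (j : ℕ)) ^ k = (1 / (2 * ((2 * M : ℕ) : ℂ))) *
        (∑ m ∈ range M, a m * (∑ j : Fin (2 * M), (ω ^ (j : ℕ)) ^ k *
            ((starRingEnd ℂ) (ω ^ (j : ℕ))) ^ m) +
          ∑ m ∈ range M, (starRingEnd ℂ) (a m) * (∑ j : Fin (2 * M), (ω ^ (j : ℕ)) ^ (m + k) *
            ((starRingEnd ℂ) (ω ^ (j : ℕ))) ^ 0)) := by
      rw [Finset.sum_congr rfl (fun j _ => by rw [hμC j])]
      simp only [Finset.mul_sum, mul_add, add_mul, Finset.sum_mul, Finset.sum_add_distrib]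
      rw [Finset.sum_comm]
      congr 1
      · apply Finset.sum_congr rfl
        intro m _
        apply Finset.sum_congr rfl
        intro j _
        ring
      · rw [Finset.sum_comm]
        apply Finset.sum_congr rfl
        intro m _
        apply Finset.sum_congr rfl
        intro j _
        ring
    rw [h1]
    have h2 : ∑ m ∈ range M, a m * (∑ j : Fin (2 * M), (ω ^ (j : ℕ)) ^ k *
            ((starRingEnd ℂ) (ω ^ (j : ℕ))) ^ m) = a k * ((2 * M : ℕ) : ℂ) := by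
      rw [Finset.sum_eq_single_of_mem k (mem_range.2 hk)]
      · rw [orth hω hN (by omega) (by omega), if_pos rfl]
      · intro m hm hmk
        rw [mem_range] at hm
        rw [orth hω hN (by omega) (by omega), if_neg (by omega), mul_zero]
    have h3 : ∑ m ∈ range M, (starRingEnd ℂ) (a m) * (∑ j : Fin (2 * M), (ω ^ (j : ℕ)) ^ (m + k) *
            ((starRingEnd ℂ) (ω ^ (j : ℕ))) ^ 0) =
        (if k = 0 then (starRingEnd ℂ) (a 0) else 0) * ((2 * M : ℕ) : ℂ) := by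
      rw [Finset.sum_eq_single_of_mem 0 (mem_range.2 (by omega))]
      · rw [orth hω hN (by omega) (by omega)]
        by_cases h : k = 0
        · rw [if_pos (by omega), if_pos h]
        · rw [if_neg (by omega), if_neg h]; ring
      · intro m hm hmk
        rw [mem_range] at hm
        rw [orth hω hN (by omega) (by omega), if_neg (by omega), mul_zero]
    rw [h2, h3]
    field_simp
  refine ⟨2 * M, μ, fun j => ω ^ (j : ℕ), ⟨?_, ?_, ?_⟩, ?_⟩
  · intro j
    rw [hμ]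
    simp only
    apply mul_nonneg (by positivity)
    have := hq ((starRingEnd ℂ) (ω ^ (j : ℕ))) (by rw [Complex.norm_conj, norm_pow, hn, one_pow])
    rw [ha]
    exact this
  · have h1 := hmom 0 (by omega)
    simp only [pow_zero, mul_one, if_true, ha0, map_one] at h1
    have h2 : ((∑ j, μ j : ℝ) : ℂ) = 1 := by
      push_cast
      rw [h1]; norm_num
    exact_mod_cast h2
  · intro j
    rw [norm_pow, hn, one_pow]
  · intro k hk1 hkn
    have h1 := hmom k (by omega)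
    rw [if_neg (by omega), add_zero] at h1
    rw [ha] at h1
    exact h1

end Pool.Agent.Q139.Baz
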