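import Pool.Agent.Q139.Baz.Ser

namespace Pool.Agent.Q139.Baz
open Finset MeasureTheory

lemma rb_eqOn (a b : ℝ) : Set.EqOn
    (fun x : ℝ => (x : ℂ) ^ ((a : ℂ) - 1) * (1 - (x : ℂ)) ^ ((b : ℂ) - 1))
    (fun x : ℝ => ((x ^ (a-1) * (1-x) ^ (b-1) : ℝ) : ℂ)) (Set.uIcc 0 1) := by
  intro x hx
  rw [Set.uIcc_of_le zero_le_one] at hx
  simp only
  have h1 : (1 : ℂ) - x = ((1 - x : ℝ) : ℂ) := by push_cast; rfl
  have h2 : (a : ℂ) - 1 = ((a - 1 : ℝ) : ℂ) := by push_cast; rfl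
  have h3 : (b : ℂ) - 1 = ((b - 1 : ℝ) : ℂ) := by push_cast; rfl
  rw [h1, h2, h3, ← Complex.ofReal_cpow hx.1, ← Complex.ofReal_cpow (by linarith [hx.2])]
  push_cast; rfl

lemma rb_int {a b : ℝ} (ha : 0 < a) (hb : 0 < b) :
    IntervalIntegrable (fun x : ℝ => x ^ (a-1) * (1-x) ^ (b-1)) volume 0 1 := by
  have h := Complex.betaIntegral_convergent (u := a) (v := b) (by simpa) (by simpa)
  have h2 : IntervalIntegrable (fun x : ℝ => ((x ^ (a-1) * (1-x) ^ (b-1) : ℝ) : ℂ)) volume 0 1 := by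
    exact IntervalIntegrable.congr ((rb_eqOn a b).mono Set.uIoc_subset_uIcc) h
  refine ⟨?_, ?_⟩
  · have h3 := Integrable.re h2.1
    simp only [RCLike.re_eq_complex_re, Complex.ofReal_re] at h3
    exact h3
  · have h3 := Integrable.re h2.2
    simp only [RCLike.re_eq_complex_re, Complex.ofReal_re] at h3
    exact h3

lemma rb_val {a b : ℝ} (ha : 0 < a) (hb : 0 < b) :
    ∫ x in (0:ℝ)..1, x ^ (a-1) * (1-x) ^ (b-1) =
      Real.Gamma a * Real.Gamma b / Real.Gamma (a + b) := by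
  have h := Complex.betaIntegral_eq_Gamma_mul_div a b (by simpa) (by simpa)
  rw [Complex.betaIntegral, intervalIntegral.integral_congr (rb_eqOn a b),
    intervalIntegral.integral_ofReal, Complex.Gamma_ofReal, Complex.Gamma_ofReal,
    ← Complex.ofReal_add, Complex.Gamma_ofReal] at h
  exact_mod_cast h

lemma rb_bin {γ : ℝ} (h0 : 0 < γ) (h1 : γ < 1) (k : ℕ) :
    (-1 : ℝ) ^ k * (Real.Gamma (k + 1 - γ) * Real.Gamma (γ + 1) / Real.Gamma (k + 2)) =
      bin γ (k+1) * (Real.Gamma (1 - γ) * Real.Gamma γ) := by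
  induction k with
  | zero =>
    have e1 : Real.Gamma (γ + 1) = γ * Real.Gamma γ := Real.Gamma_add_one h0.ne'
    have e2 : Real.Gamma ((0 : ℕ) + 2 : ℝ) = 1 := by
      norm_num [Real.Gamma_two]
    rw [e1, e2]
    simp only [bin]
    norm_num
    ring
  | succ k ih =>
    have e1 : Real.Gamma (((k+1 : ℕ) : ℝ) + 1 - γ) = (k + 1 - γ) * Real.Gamma (k + 1 - γ) := by
      rw [← Real.Gamma_add_one]
      · congr 1; push_cast; ring
      · have : (0 : ℝ) ≤ k := Nat.cast_nonneg k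
        linarith
    have e2 : Real.Gamma (((k+1 : ℕ) : ℝ) + 2) = (k + 2) * Real.Gamma (k + 2) := by
      rw [← Real.Gamma_add_one]
      · congr 1; push_cast; ring
      · positivity
    have hG : Real.Gamma ((k : ℝ) + 2) ≠ 0 := (Real.Gamma_pos_of_pos (by positivity)).ne'
    have hk : (k : ℝ) + 2 ≠ 0 := by positivity
    have e3 : bin γ (k+1+1) = bin γ (k+1) * (γ - (k+1)) / (k + 2) := by
      rw [show bin γ (k+1+1) = bin γ (k+1) * (γ - ((k+1 : ℕ) : ℝ)) / (((k+1 : ℕ) : ℝ) + 1) from rfl]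
      push_cast
      ring
    rw [e1, e2, e3]
    have : bin γ (k+1) * (γ - (k+1)) / (k + 2) * (Real.Gamma (1 - γ) * Real.Gamma γ) =
      (bin γ (k+1) * (Real.Gamma (1 - γ) * Real.Gamma γ)) * ((γ - (k+1)) / (k+2)) := by
      field_simp
    rw [this, ← ih, pow_succ]
    field_simp
    ring

lemma beta_real {γ : ℝ} (h0 : 0 < γ) (h1 : γ < 1) (a : ℕ → ℝ) (n : ℕ)
    (h : ∀ u : ℝ, 0 < u → u < 1 → a 0 + ∑ k ∈ range n, (-u) ^ k * (1 - u) * a (k+1) ≤ 1) :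
    a 0 + ∑ k ∈ range n, bin γ (k+1) * a (k+1) ≤ 1 := by
  obtain ⟨W, hW⟩ : ∃ W, W = Real.Gamma (1 - γ) * Real.Gamma γ := ⟨_, rfl⟩
  have hWpos : 0 < W := by
    rw [hW]
    exact mul_pos (Real.Gamma_pos_of_pos (by linarith)) (Real.Gamma_pos_of_pos h0)
  have hw_int := rb_int (a := 1 - γ) (b := γ) (by linarith) h0
  have hw_val := rb_val (a := 1 - γ) (b := γ) (by linarith) h0
  have hg1 : Real.Gamma (1 - γ + γ) = 1 := by
    rw [show 1 - γ + γ = 1 by ring, Real.Gamma_one]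
  rw [hg1, div_one, ← hW] at hw_val
  have hr_int : ∀ k : ℕ, IntervalIntegrable
      (fun x : ℝ => x ^ (((k : ℝ) + 1 - γ) - 1) * (1-x) ^ ((γ + 1)-1)) volume 0 1 := by
    intro k
    have : (0 : ℝ) ≤ k := Nat.cast_nonneg k
    exact rb_int (by linarith) (by linarith)
  have hr_val : ∀ k : ℕ, (-1 : ℝ) ^ k *
      (∫ x in (0:ℝ)..1, x ^ (((k : ℝ) + 1 - γ) - 1) * (1-x) ^ ((γ + 1)-1)) = bin γ (k+1) * W := by
    intro k
    have : (0 : ℝ) ≤ k := Nat.cast_nonneg k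
    rw [rb_val (by linarith) (by linarith), show (k : ℝ) + 1 - γ + (γ + 1) = k + 2 by ring,
      rb_bin h0 h1, hW]
  have hint : IntervalIntegrable (fun x : ℝ => x ^ ((1 - γ)-1) * (1-x) ^ (γ-1) * a 0 +
      ∑ k ∈ range n, (x ^ (((k : ℝ) + 1 - γ) - 1) * (1-x) ^ ((γ + 1)-1)) * ((-1) ^ k * a (k+1)))
      volume 0 1 := by
    apply IntervalIntegrable.add
    · exact hw_int.mul_const _
    · have := IntervalIntegrable.sum (μ := volume) (a := 0) (b := 1) (range n)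
        (f := fun (k : ℕ) (x : ℝ) => (x ^ (((k : ℝ) + 1 - γ) - 1) * (1-x) ^ ((γ + 1)-1)) *
          ((-1) ^ k * a (k+1))) (fun k _ => (hr_int k).mul_const _)
      convert! this using 1
      ext x
      simp
  have hmono : (∫ x in (0:ℝ)..1, (x ^ ((1 - γ)-1) * (1-x) ^ (γ-1) * a 0 +
      ∑ k ∈ range n, (x ^ (((k : ℝ) + 1 - γ) - 1) * (1-x) ^ ((γ + 1)-1)) * ((-1) ^ k * a (k+1))))
      ≤ ∫ x in (0:ℝ)..1, x ^ ((1 - γ)-1) * (1-x) ^ (γ-1) := by
    apply intervalIntegral.integral_mono_on_of_le_Ioo zero_le_one hint hw_int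
    intro x hx
    have hx0 : 0 < x := hx.1
    have hx1 : 0 < 1 - x := by linarith [hx.2]
    have e : ∀ k : ℕ, (x ^ (((k : ℝ) + 1 - γ) - 1) * (1-x) ^ ((γ + 1)-1)) =
        x ^ ((1 - γ)-1) * (1-x) ^ (γ-1) * (x ^ k * (1 - x)) := by
      intro k
      rw [show ((k : ℝ) + 1 - γ) - 1 = ((1 - γ)-1) + k by ring, Real.rpow_add hx0,
        Real.rpow_natCast, show γ + 1 - 1 = (γ - 1) + 1 by ring, Real.rpow_add hx1,
        Real.rpow_one]
      ring
    have e2 : x ^ ((1 - γ)-1) * (1-x) ^ (γ-1) * a 0 +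
      ∑ k ∈ range n, (x ^ (((k : ℝ) + 1 - γ) - 1) * (1-x) ^ ((γ + 1)-1)) * ((-1) ^ k * a (k+1))
        = x ^ ((1 - γ)-1) * (1-x) ^ (γ-1) *
          (a 0 + ∑ k ∈ range n, (-x) ^ k * (1 - x) * a (k+1)) := by
      rw [mul_add, Finset.mul_sum]
      congr 1
      apply Finset.sum_congr rfl
      intro k _
      rw [e, neg_pow x k]
      ring
    rw [e2]
    have h3 := h x hx0 hx.2
    have h4 : 0 ≤ x ^ ((1 - γ)-1) * (1-x) ^ (γ-1) :=
      mul_nonneg (Real.rpow_nonneg hx0.le _) (Real.rpow_nonneg hx1.le _)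
    calc _ ≤ x ^ ((1 - γ)-1) * (1-x) ^ (γ-1) * 1 := mul_le_mul_of_nonneg_left h3 h4
      _ = _ := mul_one _
  rw [hw_val] at hmono
  rw [intervalIntegral.integral_add (hw_int.mul_const _) (by
      have := IntervalIntegrable.sum (μ := volume) (a := 0) (b := 1) (range n)
        (f := fun (k : ℕ) (x : ℝ) => (x ^ (((k : ℝ) + 1 - γ) - 1) * (1-x) ^ ((γ + 1)-1)) *
          ((-1) ^ k * a (k+1))) (fun k _ => (hr_int k).mul_const _)
      convert! this using 1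
      ext x
      simp),
    intervalIntegral.integral_finsetSum (fun k _ => (hr_int k).mul_const _),
    intervalIntegral.integral_mul_const, hw_val] at hmono
  have e3 : ∑ k ∈ range n, ∫ x in (0:ℝ)..1,
      (x ^ (((k : ℝ) + 1 - γ) - 1) * (1-x) ^ ((γ + 1)-1)) * ((-1) ^ k * a (k+1)) =
      W * ∑ k ∈ range n, bin γ (k+1) * a (k+1) := by
    rw [Finset.mul_sum]
    apply Finset.sum_congr rfl
    intro k _
    rw [intervalIntegral.integral_mul_const]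
    have := hr_val k
    linear_combination a (k+1) * this
  rw [e3] at hmono
  have : W * (a 0 + ∑ k ∈ range n, bin γ (k+1) * a (k+1)) ≤ W * 1 := by linarith
  exact le_of_mul_le_mul_left this hWpos

lemma norm_le_one_of_re {Z : ℂ} (h : ∀ e : ℂ, ‖e‖ = 1 → (e * Z).re ≤ 1) : ‖Z‖ ≤ 1 := by
  by_cases hZ : Z = 0
  · rw [hZ, norm_zero]; norm_num
  · have hn : (‖Z‖ : ℂ) ≠ 0 := by exact_mod_cast (norm_ne_zero_iff.2 hZ)
    have := h ((starRingEnd ℂ) Z / ‖Z‖) (by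
      rw [norm_div, Complex.norm_conj, Complex.norm_real, norm_norm]
      exact div_self (norm_ne_zero_iff.2 hZ))
    have e : (starRingEnd ℂ) Z / ‖Z‖ * Z = ((‖Z‖ : ℝ) : ℂ) := by
      rw [div_mul_eq_mul_div, div_eq_iff hn, mul_comm ((starRingEnd ℂ) Z) Z, Complex.mul_conj,
        Complex.normSq_eq_norm_sq]
      push_cast; ring
    rw [e, Complex.ofReal_re] at this
    exact this

lemma beta_cplx {γ : ℝ} (h0 : 0 < γ) (h1 : γ < 1) (A : ℕ → ℂ) (n : ℕ)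
    (h : ∀ u : ℝ, 0 < u → u < 1 →
      ‖A 0 + ∑ k ∈ range n, (((-u) ^ k * (1 - u) : ℝ) : ℂ) * A (k+1)‖ ≤ 1) :
    ‖A 0 + ∑ k ∈ range n, ((bin γ (k+1) : ℝ) : ℂ) * A (k+1)‖ ≤ 1 := by
  apply norm_le_one_of_re
  intro e he
  have key : ∀ c : ℕ → ℝ, (e * (A 0 + ∑ k ∈ range n, ((c k : ℝ) : ℂ) * A (k+1))).re =
      (e * A 0).re + ∑ k ∈ range n, c k * (e * A (k+1)).re := by
    intro c
    rw [mul_add, Complex.add_re, Finset.mul_sum, Complex.re_sum]
    congr 1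
    apply Finset.sum_congr rfl
    intro k _
    rw [show e * (((c k : ℝ) : ℂ) * A (k+1)) = ((c k : ℝ) : ℂ) * (e * A (k+1)) by ring,
      Complex.re_ofReal_mul]
  rw [key]
  apply beta_real h0 h1 (fun k => (e * A k).re) n
  intro u hu0 hu1
  have h2 := h u hu0 hu1
  have h3 := key (fun k => (-u) ^ k * (1 - u))
  rw [← h3]
  calc _ ≤ ‖e * (A 0 + ∑ k ∈ range n, (((-u) ^ k * (1 - u) : ℝ) : ℂ) * A (k+1))‖ :=
        Complex.re_le_norm _
    _ ≤ 1 := by rw [norm_mul, he, one_mul]; exact h2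

end Pool.Agent.Q139.Baz
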