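import Pool.Agent.Q139.Baz.Energy
import Pool.Agent.Q139.Baz.Beta

namespace Pool.Agent.Q139.Baz
open PowerSeries Finset

/-- a finite probability distribution on the unit circle -/
structure Atoms {ι : Type*} [Fintype ι] (μ : ι → ℝ) (ζ : ι → ℂ) : Prop where
  nonneg : ∀ i, 0 ≤ μ i
  sum : ∑ i, μ i = 1
  norm : ∀ i, ‖ζ i‖ = 1

/-- `H(z) = ∑ μ_i G(ζ_i z)` -/
noncomputable def Hs {ι : Type*} [Fintype ι] (μ : ι → ℝ) (ζ : ι → ℂ) (G : PowerSeries ℝ) :
    PowerSeries ℂ :=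
  ∑ i, C (μ i : ℂ) * rescale (ζ i) (cx G)

section
variable {ι : Type*} [Fintype ι]

lemma coeff_Hs (μ : ι → ℝ) (ζ : ι → ℂ) (G : PowerSeries ℝ) (n : ℕ) :
    coeff n (Hs μ ζ G) = (∑ i, (μ i : ℂ) * ζ i ^ n) * coeff n G := by
  rw [Hs, map_sum, Finset.sum_mul]
  apply Finset.sum_congr rfl
  intro i _
  rw [coeff_C_mul, coeff_rescale, coeff_cx]; ring

lemma Hs0 {μ : ι → ℝ} {ζ : ι → ℂ} (hA : Atoms μ ζ) {G : PowerSeries ℝ}
    (hG : constantCoeff G = 1) : constantCoeff (Hs μ ζ G) = 1 := by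
  rw [← coeff_zero_eq_constantCoeff_apply, coeff_Hs, coeff_zero_eq_constantCoeff_apply, hG]
  simp only [pow_zero, mul_one]
  have := hA.sum
  simp only [Complex.ofReal_one, mul_one]
  exact_mod_cast this

lemma norm_coeff_Hs {μ : ι → ℝ} {ζ : ι → ℂ} (hA : Atoms μ ζ) {G : PowerSeries ℝ}
    (hG : NN G) (n : ℕ) : ‖coeff n (Hs μ ζ G)‖ ≤ coeff n G := by
  rw [coeff_Hs, norm_mul, Complex.norm_real, Real.norm_of_nonneg (hG n)]
  have : ‖∑ i, (μ i : ℂ) * ζ i ^ n‖ ≤ 1 := by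
    refine (norm_sum_le _ _).trans ?_
    rw [← hA.sum]
    apply Finset.sum_le_sum
    intro i _
    rw [norm_mul, norm_pow, hA.norm, one_pow, mul_one, Complex.norm_real,
      Real.norm_of_nonneg (hA.nonneg i)]
  calc _ ≤ 1 * coeff n G := mul_le_mul_of_nonneg_right this (hG n)
    _ = _ := one_mul _

theorem level {T B Ka : PowerSeries ℝ} (hg : Good T B Ka) {μ : ι → ℝ} {ζ : ι → ℂ}
    (hA : Atoms μ ζ) {u : ℝ} (hu0 : 0 < u) (hu1 : u < 1) (Pi : PowerSeries ℂ)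
    (hPi : (C (u : ℂ) * Hs μ ζ (2 * T - 1) + C ((1 - u : ℝ) : ℂ) * cx (2 * T - 1)) * Pi = 1)
    (n : ℕ) : ‖coeff n (Ks ℂ * (Hs μ ζ (2 * T - 1) * Pi))‖ ≤ 1 := by
  classical
  obtain ⟨G, hG⟩ : ∃ G, G = 2 * T - 1 := ⟨_, rfl⟩
  rw [← hG] at hPi ⊢
  have hen := energy hg (ι := Option ι) (fun o => o.elim (1 - u) (fun i => u * μ i)) (by
      intro i
      cases i with
      | none => simp; linarith
      | some i => exact mul_nonneg hu0.le (hA.nonneg i)) (by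
      rw [Fintype.sum_option]
      simp only [Option.elim_none, Option.elim_some]
      rw [← Finset.mul_sum, hA.sum]; ring) (fun o => o.elim 1 ζ) (by
      intro i
      cases i with
      | none => simp
      | some i => exact hA.norm i) none rfl (by simp; linarith) (cx G * Pi) (by
      rw [Fintype.sum_option]
      simp only [Option.elim_none, Option.elim_some]
      have : rescale (1 : ℂ) (cx (2 * T - 1)) = cx (2 * T - 1) := by rw [rescale_one]; rfl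
      rw [this, ← hG]
      have e : ∑ i, C ((u * μ i : ℝ) : ℂ) * rescale (ζ i) (cx G) = C (u : ℂ) * Hs μ ζ G := by
        rw [Hs, Finset.mul_sum]
        apply Finset.sum_congr rfl
        intro i _
        push_cast
        rw [map_mul]; ring
      rw [e]
      linear_combination cx G * hPi) n
  simp only [Option.elim_none] at hen
  obtain ⟨v, hv⟩ : ∃ v, v = coeff n (Ks ℂ * (cx G * Pi - 1)) := ⟨_, rfl⟩
  rw [← hv] at hen
  obtain ⟨c, hc⟩ : ∃ c, c = (1 - u) / u := ⟨_, rfl⟩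
  have hc0 : 0 < c := by rw [hc]; exact div_pos (by linarith) hu0
  rw [show 1 - (1 - u) = u by ring, ← hc] at hen
  have hKs1 : coeff n (Ks ℂ) = 1 := by rw [Ks, coeff_mk]
  have hmain : coeff n (Ks ℂ * (Hs μ ζ G * Pi)) = 1 - (c : ℂ) * v := by
    have h1 : C (u : ℂ) * (Ks ℂ * (Hs μ ζ G * Pi)) =
        C (u : ℂ) * Ks ℂ - C ((1 - u : ℝ) : ℂ) * (Ks ℂ * (cx G * Pi - 1)) := by
      have hC : C ((1 - u : ℝ) : ℂ) = 1 - C (u : ℂ) := by
        push_cast; rw [map_sub, map_one]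
      rw [hC] at hPi ⊢
      linear_combination Ks ℂ * hPi
    have h2 := congrArg (coeff n) h1
    rw [map_sub, coeff_C_mul, coeff_C_mul, coeff_C_mul, hKs1, ← hv] at h2
    have hu : (u : ℂ) ≠ 0 := by exact_mod_cast hu0.ne'
    apply mul_left_cancel₀ hu
    rw [h2, hc]
    push_cast
    field_simp
  rw [hmain]
  have h3 : ‖1 - (c : ℂ) * v‖ ^ 2 ≤ 1 := by
    rw [Complex.sq_norm, Complex.normSq_apply]
    have h4 : ‖v‖ ^ 2 = v.re * v.re + v.im * v.im := by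
      rw [Complex.sq_norm, Complex.normSq_apply]
    rw [h4] at hen
    simp only [Complex.sub_re, Complex.sub_im, Complex.one_re, Complex.one_im,
      Complex.re_ofReal_mul, Complex.im_ofReal_mul]
    nlinarith [mul_le_mul_of_nonneg_left hen hc0.le]
  have h5 : ‖1 - (c : ℂ) * v‖ ≤ 1 := by
    by_contra hcon
    push Not at hcon
    nlinarith [norm_nonneg (1 - (c : ℂ) * v)]
  exact h5

lemma bin_ofReal (γ : ℝ) (k : ℕ) : bin (γ : ℂ) k = ((bin γ k : ℝ) : ℂ) := by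
  induction k with
  | zero => simp [bin]
  | succ k ih =>
    rw [show bin (γ : ℂ) (k+1) = bin (γ : ℂ) k * (γ - k) / (k + 1) from rfl,
      show bin γ (k+1) = bin γ k * (γ - k) / (k + 1) from rfl, ih]
    push_cast; rfl

lemma D_cx (P : PowerSeries ℝ) : D (cx P) = cx (D P) := by
  ext n
  rw [coeff_D, coeff_cx, coeff_cx, coeff_D]; push_cast; rfl

lemma cx_C (a : ℝ) : cx (C a) = C (a : ℂ) := by
  simp [cx]

lemma pw_cx (γ : ℝ) {G : PowerSeries ℝ} (hG : constantCoeff G = 1) :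
    pw (γ : ℂ) (cx G) = cx (pw γ G) := by
  have h0 : constantCoeff (cx G) = 1 := by rw [constantCoeff_cx, hG]; simp
  refine IsPow.unique h0 (isPow_pw _ h0) ⟨?_, ?_⟩
  · rw [constantCoeff_cx, constantCoeff_pw γ hG]; simp
  · rw [D_cx, D_cx, ← map_mul, (isPow_pw γ hG).2, map_mul, map_mul, cx_C]

/-- the expansion of `(1+y)/(1+uy)`. -/
lemma geom {y Xs : PowerSeries ℂ} {u : ℂ} (h : Xs * (1 + C u * y) = 1) (m : ℕ) :
    Xs = ∑ k ∈ range m, C ((-u) ^ k) * y ^ k + C ((-u) ^ m) * y ^ m * Xs := by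
  induction m with
  | zero => simp
  | succ m ih =>
    rw [Finset.sum_range_succ]
    have e : C ((-u) ^ (m+1)) = C ((-u)^m) * (- C u) := by
      rw [pow_succ, map_mul, map_neg]
    rw [e]
    linear_combination ih + C ((-u)^m) * y ^ m * h

/-- the key estimate `|[z^n] (H/G)^γ/(1-z)| ≤ 1`. -/
theorem xbound {T B Ka : PowerSeries ℝ} (hg : Good T B Ka) {μ : ι → ℝ} {ζ : ι → ℂ}
    (hA : Atoms μ ζ) {γ : ℝ} (h0 : 0 < γ) (h1 : γ ≤ 1) (n : ℕ) :
    ‖coeff n (Ks ℂ * (pw (γ : ℂ) (Hs μ ζ (2 * T - 1)) * (pw (γ : ℂ) (cx (2 * T - 1)))⁻¹))‖ ≤ 1 := by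
  have hlev := fun {u : ℝ} (hu0 : 0 < u) (hu1 : u < 1) => level hg hA hu0 hu1
  have hG0 := hg.G0
  have hKG := hg.KG
  have hGnn : NN (2 * T - 1) := by
    have := hg.pw_nn (γ := 1) zero_le_one
    rwa [pw_one hG0] at this
  obtain ⟨G, hG⟩ : ∃ G, G = 2 * T - 1 := ⟨_, rfl⟩
  rw [← hG] at hG0 hKG hGnn
  simp only [← hG] at hlev ⊢
  have hH0 := Hs0 hA hG0
  obtain ⟨H, hH⟩ : ∃ H, H = Hs μ ζ G := ⟨_, rfl⟩
  have hHn := norm_coeff_Hs hA hGnn
  simp only [← hH] at hlev hH0 hHn ⊢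
  have hcG0 : constantCoeff (cx G) = 1 := by rw [constantCoeff_cx, hG0]; simp
  have hcGi : cx G * (cx G)⁻¹ = 1 := PowerSeries.mul_inv_cancel _ (by rw [hcG0]; exact one_ne_zero)
  have hKs1 : ∀ m, coeff m (Ks ℝ) = 1 := fun m => by rw [Ks, coeff_mk]
  have hKs1' : ∀ m, coeff m (Ks ℂ) = 1 := fun m => by rw [Ks, coeff_mk]
  rcases h1.eq_or_lt with h1 | h1
  · -- γ = 1
    subst h1
    rw [Complex.ofReal_one, pw_one hH0, pw_one hcG0]
    have e1 : Ks ℂ * (H * (cx G)⁻¹) = cx Ka * H := by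
      have : cx Ka * cx G = Ks ℂ := by
        rw [← map_mul, hKG]
        ext m
        rw [coeff_cx, hKs1, hKs1']; simp
      rw [← this]
      linear_combination cx Ka * H * hcGi
    rw [e1, coeff_mul]
    refine (norm_sum_le _ _).trans ?_
    have e2 : ∑ p ∈ antidiagonal n, coeff p.1 Ka * coeff p.2 G = 1 := by
      rw [← coeff_mul, hKG, hKs1]
    rw [← e2]
    apply Finset.sum_le_sum
    intro p _
    rw [norm_mul, coeff_cx, Complex.norm_real, Real.norm_of_nonneg (hg.Knn _)]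
    exact mul_le_mul_of_nonneg_left (hHn _) (hg.Knn _)
  · -- γ < 1
    rw [← pw_inv _ hcG0, ← pw_mul _ hH0 (by simp [hcG0])]
    obtain ⟨r, hr⟩ : ∃ r, r = H * (cx G)⁻¹ := ⟨_, rfl⟩
    rw [← hr]
    have hr0 : constantCoeff r = 1 := by rw [hr]; simp [hH0, hcG0]
    have hHr : H = cx G * r := by rw [hr]; linear_combination (-H) * hcGi
    obtain ⟨y, hy⟩ : ∃ y, y = r - 1 := ⟨_, rfl⟩
    have hy0 : constantCoeff y = 0 := by rw [hy]; simp [hr0]
    have e1 : coeff n (Ks ℂ * pw (γ : ℂ) r) = coeff n (Ks ℂ * bs (γ : ℂ) y n) := by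
      rw [coeff_mul, coeff_mul]
      apply Finset.sum_congr rfl
      intro p hp
      rw [HasAntidiagonal.mem_antidiagonal] at hp
      rw [coeff_pw _ hr0 (show p.2 ≤ n by omega), hy]
    obtain ⟨A, hAd⟩ : ∃ A : ℕ → ℂ, A = fun k => coeff n (Ks ℂ * y ^ k) := ⟨_, rfl⟩
    have hA0 : A 0 = 1 := by rw [hAd]; simp [hKs1']
    have e2 : coeff n (Ks ℂ * bs (γ : ℂ) y n) =
        A 0 + ∑ k ∈ range n, ((bin γ (k+1) : ℝ) : ℂ) * A (k+1) := by
      rw [bs, Finset.mul_sum, map_sum, Finset.sum_range_succ']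
      rw [add_comm]
      congr 1
      · rw [hAd]; simp [bin]
      · apply Finset.sum_congr rfl
        intro k _
        rw [hAd, ← bin_ofReal, mul_left_comm, coeff_C_mul]
    rw [e1, e2]
    apply beta_cplx h0 h1 A n
    intro u hu0 hu1
    have hP0 : constantCoeff (C (u : ℂ) * H + C ((1 - u : ℝ) : ℂ) * cx G) ≠ 0 := by
      rw [map_add, map_mul, map_mul, hH0, hcG0, constantCoeff_C, constantCoeff_C]
      push_cast
      ring_nf
      exact one_ne_zero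
    obtain ⟨Pi, hPi⟩ : ∃ Pi, Pi = (C (u : ℂ) * H + C ((1 - u : ℝ) : ℂ) * cx G)⁻¹ := ⟨_, rfl⟩
    have hPi1 : (C (u : ℂ) * H + C ((1 - u : ℝ) : ℂ) * cx G) * Pi = 1 := by
      rw [hPi]; exact PowerSeries.mul_inv_cancel _ hP0
    have h2 := hlev hu0 hu1 Pi hPi1 n
    have hC : C ((1 - u : ℝ) : ℂ) = 1 - C (u : ℂ) := by
      push_cast; rw [map_sub, map_one]
    have hX : (cx G * Pi) * (1 + C (u : ℂ) * y) = 1 := by
      rw [hHr, hC] at hPi1
      rw [hy]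
      linear_combination hPi1
    have e3 : H * Pi = 1 + (1 - C (u : ℂ)) * (y * (cx G * Pi)) := by
      rw [hHr]
      rw [hy] at hX ⊢
      linear_combination hX
    have e4 := geom hX n
    have e5 : H * Pi = 1 + (∑ k ∈ range n, C ((((-u) ^ k * (1 - u) : ℝ)) : ℂ) * y ^ (k+1)) +
        (1 - C (u : ℂ)) * C ((-(u : ℂ)) ^ n) * (y ^ (n+1) * (cx G * Pi)) := by
      have : ∑ k ∈ range n, C ((((-u) ^ k * (1 - u) : ℝ)) : ℂ) * y ^ (k+1) =
          (1 - C (u : ℂ)) * y * ∑ k ∈ range n, C ((-(u : ℂ)) ^ k) * y ^ k := by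
        rw [Finset.mul_sum]
        apply Finset.sum_congr rfl
        intro k _
        push_cast
        rw [map_mul, map_sub, map_one, pow_succ]; ring
      rw [e3, this]
      linear_combination (1 - C (u : ℂ)) * y * e4
    have e6 : coeff n (Ks ℂ * (H * Pi)) =
        A 0 + ∑ k ∈ range n, (((-u) ^ k * (1 - u) : ℝ) : ℂ) * A (k+1) := by
      have hz : coeff n (Ks ℂ * ((1 - C (u : ℂ)) * C ((-(u : ℂ)) ^ n) *
          (y ^ (n+1) * (cx G * Pi)))) = 0 := by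
        have : Ks ℂ * ((1 - C (u : ℂ)) * C ((-(u : ℂ)) ^ n) *
          (y ^ (n+1) * (cx G * Pi))) = y ^ (n+1) * (Ks ℂ * ((1 - C (u : ℂ)) *
            C ((-(u : ℂ)) ^ n) * (cx G * Pi))) := by ring
        rw [this, coeff_mul]
        apply Finset.sum_eq_zero
        intro p hp
        rw [HasAntidiagonal.mem_antidiagonal] at hp
        rw [coeff_pow_zero hy0 (by omega), zero_mul]
      rw [e5, mul_add, mul_add, map_add, map_add, hz, add_zero, mul_one, hKs1', hA0,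
        Finset.mul_sum, map_sum]
      congr 1
      apply Finset.sum_congr rfl
      intro k _
      rw [hAd, mul_left_comm, coeff_C_mul]
    rw [← e6]
    exact h2

/-- `|[z^m] H^γ DG| ≤ [z^m] G^γ DG`. -/
theorem DGbound {T B Ka : PowerSeries ℝ} (hg : Good T B Ka) {μ : ι → ℝ} {ζ : ι → ℂ}
    (hA : Atoms μ ζ) {γ : ℝ} (h0 : 0 < γ) (h1 : γ ≤ 1) (m : ℕ) :
    ‖coeff m (pw (γ : ℂ) (Hs μ ζ (2 * T - 1)) * cx (D (2 * T - 1)))‖ ≤
      coeff m (pw γ (2 * T - 1) * D (2 * T - 1)) := by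
  have hx := xbound hg hA h0 h1
  have hG0 := hg.G0
  have hDG := hg.DG
  have hpw := hg.pw_nn h0.le
  obtain ⟨G, hG⟩ : ∃ G, G = 2 * T - 1 := ⟨_, rfl⟩
  rw [← hG] at hG0 hDG hpw
  simp only [← hG] at hx ⊢
  have hcG0 : constantCoeff (cx G) = 1 := by rw [constantCoeff_cx, hG0]; simp
  have hp0 : constantCoeff (pw (γ : ℂ) (cx G)) = 1 := constantCoeff_pw _ hcG0
  have hpi : pw (γ : ℂ) (cx G) * (pw (γ : ℂ) (cx G))⁻¹ = 1 :=
    PowerSeries.mul_inv_cancel _ (by rw [hp0]; exact one_ne_zero)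
  obtain ⟨V, hV⟩ : ∃ V, V = (1 - X) * D G * pw γ G := ⟨_, rfl⟩
  have hVnn : NN V := by rw [hV]; exact hDG.mul hpw
  have hKs1 : ∀ m, coeff m (Ks ℝ) = 1 := fun m => by rw [Ks, coeff_mk]
  have e1 : pw γ G * D G = Ks ℝ * V := by
    rw [hV]; linear_combination (-(pw γ G) * D G) * Ks_mul ℝ
  have e2 : pw (γ : ℂ) (Hs μ ζ G) * cx (D G) =
      (Ks ℂ * (pw (γ : ℂ) (Hs μ ζ G) * (pw (γ : ℂ) (cx G))⁻¹)) * cx V := by
    have hcX : cx X = (X : PowerSeries ℂ) := by simp [cx]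
    rw [hV, map_mul, map_mul, map_sub, map_one, hcX, ← pw_cx γ hG0]
    linear_combination (-(pw (γ : ℂ) (Hs μ ζ G)) * cx (D G)) * Ks_mul ℂ -
      (Ks ℂ * pw (γ : ℂ) (Hs μ ζ G) * (1 - X) * cx (D G)) * hpi
  rw [e1, e2, coeff_mul, coeff_mul]
  refine (norm_sum_le _ _).trans ?_
  apply Finset.sum_le_sum
  intro p _
  rw [norm_mul, coeff_cx, Complex.norm_real, Real.norm_of_nonneg (hVnn _), hKs1]
  exact mul_le_mul_of_nonneg_right (hx _) (hVnn _)

lemma D_pw_succ {K : Type*} [Field K] [CharZero K] (γ : K) {H : PowerSeries K}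
    (hH : constantCoeff H = 1) : D (pw (γ + 1) H) = C (γ + 1) * (pw γ H * D H) := by
  have h1 := (isPow_pw (γ + 1) hH).2
  have h2 : pw (γ + 1) H = pw γ H * H := by rw [pw_add γ 1 hH, pw_one hH]
  have hH0 : H ≠ 0 := by
    intro h
    rw [h] at hH
    simp at hH
  apply mul_left_cancel₀ hH0
  rw [h1, h2]; ring

lemma rescale_Hs (μ : ι → ℝ) (ζ : ι → ℂ) (G : PowerSeries ℝ) (a : ℂ) :
    rescale a (Hs μ ζ G) = Hs μ (fun i => a * ζ i) G := by
  ext n
  rw [coeff_rescale, coeff_Hs, coeff_Hs, Finset.sum_mul, Finset.sum_mul, Finset.mul_sum]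
  apply Finset.sum_congr rfl
  intro i _
  rw [mul_pow]; ring

/-- the coefficient bound for exponents in `(1, 2]`. -/
theorem bound_one {T B Ka : PowerSeries ℝ} (hg : Good T B Ka) {μ : ι → ℝ} {ζ : ι → ℂ}
    (hA : Atoms μ ζ) {γ : ℝ} (h0 : 0 < γ) (h1 : γ ≤ 1) (m : ℕ) :
    ‖coeff m (pw ((γ + 1 : ℝ) : ℂ) (Hs μ ζ (2 * T - 1)))‖ ≤ coeff m (pw (γ + 1) (2 * T - 1)) := by
  have hG0 := hg.G0
  have hDGb : ∀ (ζ' : ι → ℂ), Atoms μ ζ' →
    ‖coeff m (pw (γ : ℂ) (Hs μ ζ' (2 * T - 1)) * cx (D (2 * T - 1)))‖ ≤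
      coeff m (pw γ (2 * T - 1) * D (2 * T - 1)) := fun ζ' hA' => DGbound hg hA' h0 h1 m
  obtain ⟨G, hG⟩ : ∃ G, G = 2 * T - 1 := ⟨_, rfl⟩
  rw [← hG] at hG0
  simp only [← hG] at hDGb ⊢
  have hH0 := Hs0 hA hG0
  rcases Nat.eq_zero_or_pos m with rfl | hm
  · rw [coeff_zero_eq_constantCoeff_apply, coeff_zero_eq_constantCoeff_apply,
      constantCoeff_pw _ hH0, constantCoeff_pw _ hG0]
    simp
  · have hm' : (0 : ℝ) < m := by exact_mod_cast hm
    have e1 : (m : ℝ) * coeff m (pw (γ + 1) G) = (γ + 1) * coeff m (pw γ G * D G) := by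
      rw [← coeff_D, D_pw_succ _ hG0, coeff_C_mul]
    have e2 : (m : ℂ) * coeff m (pw ((γ + 1 : ℝ) : ℂ) (Hs μ ζ G)) =
        ((γ + 1 : ℝ) : ℂ) * coeff m (pw (γ : ℂ) (Hs μ ζ G) * D (Hs μ ζ G)) := by
      push_cast
      rw [← coeff_D, D_pw_succ _ hH0, coeff_C_mul]
    have e3 : D (Hs μ ζ G) = ∑ i, C (μ i : ℂ) * rescale (ζ i) (cx (D G)) := by
      ext k
      rw [coeff_D, coeff_Hs, map_sum]
      simp only [coeff_C_mul, coeff_rescale, coeff_cx, coeff_D]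
      rw [Finset.sum_mul, Finset.mul_sum]
      apply Finset.sum_congr rfl
      intro i _
      push_cast; ring
    have e4 : ‖coeff m (pw (γ : ℂ) (Hs μ ζ G) * D (Hs μ ζ G))‖ ≤ coeff m (pw γ G * D G) := by
      rw [e3, Finset.mul_sum, map_sum]
      refine (norm_sum_le _ _).trans ?_
      have : coeff m (pw γ G * D G) = ∑ i, μ i * coeff m (pw γ G * D G) := by
        rw [← Finset.sum_mul, hA.sum, one_mul]
      rw [this]
      apply Finset.sum_le_sum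
      intro i _
      rw [mul_left_comm, coeff_C_mul, norm_mul, Complex.norm_real,
        Real.norm_of_nonneg (hA.nonneg i)]
      apply mul_le_mul_of_nonneg_left _ (hA.nonneg i)
      have hzi : ζ i ≠ 0 := by
        intro h
        have := hA.norm i
        rw [h, norm_zero] at this
        exact zero_ne_one this
      have e5 : pw (γ : ℂ) (Hs μ ζ G) * rescale (ζ i) (cx (D G)) =
          rescale (ζ i) (pw (γ : ℂ) (Hs μ (fun j => (ζ i)⁻¹ * ζ j) G) * cx (D G)) := by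
        rw [map_mul, ← rescale_Hs, ← pw_rescale, rescale_rescale]
        · rw [inv_mul_cancel₀ hzi, rescale_one]; rfl
        · rw [constantCoeff_rescale, hH0]
      rw [e5, coeff_rescale, norm_mul, norm_pow, hA.norm, one_pow, one_mul]
      apply hDGb
      refine ⟨hA.nonneg, hA.sum, ?_⟩
      intro j
      rw [norm_mul, norm_inv, hA.norm, hA.norm]; norm_num
    have h2 : (m : ℝ) * ‖coeff m (pw ((γ + 1 : ℝ) : ℂ) (Hs μ ζ G))‖ ≤
        m * coeff m (pw (γ + 1) G) := by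
      rw [e1]
      have h3 := congrArg norm e2
      rw [norm_mul, norm_mul, Complex.norm_natCast, Complex.norm_real,
        Real.norm_of_nonneg (by linarith)] at h3
      rw [h3]
      exact mul_le_mul_of_nonneg_left e4 (by linarith)
    exact le_of_mul_le_mul_left h2 hm'

/-- the coefficient bound for all exponents `γ + k`, `0 < γ ≤ 1`, `k ≥ 1`. -/
theorem bound_nat {T B Ka : PowerSeries ℝ} (hg : Good T B Ka) {μ : ι → ℝ} {ζ : ι → ℂ}
    (hA : Atoms μ ζ) {γ : ℝ} (h0 : 0 < γ) (h1 : γ ≤ 1) (k : ℕ) (m : ℕ) :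
    ‖coeff m (pw ((γ + 1 + k : ℝ) : ℂ) (Hs μ ζ (2 * T - 1)))‖ ≤
      coeff m (pw (γ + 1 + k) (2 * T - 1)) := by
  induction k generalizing m with
  | zero =>
    have := bound_one hg hA h0 h1 m
    simpa using this
  | succ k ih =>
    have hG0 := hg.G0
    have hGnn : NN (2 * T - 1) := by
      have := hg.pw_nn (γ := 1) zero_le_one
      rwa [pw_one hG0] at this
    have hH0 := Hs0 hA hG0
    have e1 : pw (γ + 1 + ((k+1 : ℕ) : ℝ)) (2 * T - 1) =
        pw (γ + 1 + k) (2 * T - 1) * (2 * T - 1) := by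
      push_cast
      rw [← add_assoc, pw_add _ 1 hG0, pw_one hG0]
    have e2 : pw ((γ + 1 + ((k+1 : ℕ) : ℝ) : ℝ) : ℂ) (Hs μ ζ (2 * T - 1)) =
        pw ((γ + 1 + k : ℝ) : ℂ) (Hs μ ζ (2 * T - 1)) * Hs μ ζ (2 * T - 1) := by
      push_cast
      rw [← add_assoc, pw_add _ 1 hH0, pw_one hH0]
    rw [e1, e2, coeff_mul, coeff_mul]
    refine (norm_sum_le _ _).trans ?_
    apply Finset.sum_le_sum
    intro p _
    rw [norm_mul]
    exact mul_le_mul (ih _) (norm_coeff_Hs hA hGnn _) (norm_nonneg _)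
      ((norm_nonneg _).trans (ih _))

/-- the coefficient bound for all exponents `δ > 1`. -/
theorem bound_all {T B Ka : PowerSeries ℝ} (hg : Good T B Ka) {μ : ι → ℝ} {ζ : ι → ℂ}
    (hA : Atoms μ ζ) {δ : ℝ} (h1 : 1 < δ) (m : ℕ) :
    ‖coeff m (pw (δ : ℂ) (Hs μ ζ (2 * T - 1)))‖ ≤ coeff m (pw δ (2 * T - 1)) := by
  obtain ⟨k, hk1, hk2⟩ : ∃ k : ℕ, (k : ℝ) + 1 < δ ∧ δ ≤ k + 2 := by
    have h2 : 0 < δ - 1 := by linarith
    have h3 : 0 < ⌈δ - 1⌉₊ := Nat.ceil_pos.2 h2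
    refine ⟨⌈δ - 1⌉₊ - 1, ?_, ?_⟩
    · have h4 : (⌈δ - 1⌉₊ : ℝ) < δ - 1 + 1 := Nat.ceil_lt_add_one h2.le
      rw [Nat.cast_sub h3]; push_cast; linarith
    · have h4 := Nat.le_ceil (δ - 1)
      rw [Nat.cast_sub h3]; push_cast; linarith
  have := bound_nat hg hA (γ := δ - 1 - k) (by linarith) (by linarith) k m
  rw [show δ - 1 - (k : ℝ) + 1 + k = δ by ring] at this
  exact this

end

end Pool.Agent.Q139.Baz
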