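import Pool.Agent.Q139.Baz.Real

namespace Pool.Agent.Q139.Baz
open PowerSeries Finset

/-- real series as complex series -/
noncomputable def cx : PowerSeries ℝ →+* PowerSeries ℂ := PowerSeries.map Complex.ofRealHom

lemma coeff_cx (P : PowerSeries ℝ) (n : ℕ) : coeff n (cx P) = ((coeff n P : ℝ) : ℂ) := by
  simp [cx]

lemma constantCoeff_cx (P : PowerSeries ℝ) :
    constantCoeff (cx P) = ((constantCoeff P : ℝ) : ℂ) := by
  rw [← coeff_zero_eq_constantCoeff_apply, coeff_cx, coeff_zero_eq_constantCoeff_apply]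

/-- Cauchy-Schwarz for the atom. -/
lemma atom_var {ι : Type*} [Fintype ι] [DecidableEq ι] (ν : ι → ℝ) (hν : ∀ i, 0 ≤ ν i)
    (hs : ∑ i, ν i = 1) (o : ι) (e : ι → ℂ) (he : ∑ i, (ν i : ℂ) * e i = 0) :
    ν o * ‖e o‖ ^ 2 ≤ (1 - ν o) * ∑ i, ν i * ‖e i‖ ^ 2 := by
  have h1 : ∑ i ∈ univ.erase o, (ν i : ℂ) * e i = - (ν o * e o) := by
    rw [← Finset.add_sum_erase _ _ (mem_univ o)] at he
    linear_combination he
  have h2 : ∑ i ∈ univ.erase o, ν i = 1 - ν o := by
    rw [← Finset.add_sum_erase _ _ (mem_univ o)] at hs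
    linarith
  have h3 : ∑ i ∈ univ.erase o, ν i * ‖e i‖ ^ 2 = ∑ i, ν i * ‖e i‖ ^ 2 - ν o * ‖e o‖ ^ 2 := by
    rw [← Finset.add_sum_erase univ _ (mem_univ o)]
    ring
  have h4 : ν o * ‖e o‖ ≤ ∑ i ∈ univ.erase o, ν i * ‖e i‖ := by
    calc ν o * ‖e o‖ = ‖∑ i ∈ univ.erase o, (ν i : ℂ) * e i‖ := by
          rw [h1, norm_neg, norm_mul, Complex.norm_real, Real.norm_of_nonneg (hν o)]
      _ ≤ ∑ i ∈ univ.erase o, ‖(ν i : ℂ) * e i‖ := norm_sum_le _ _
      _ = _ := by
          apply Finset.sum_congr rfl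
          intro i _
          rw [norm_mul, Complex.norm_real, Real.norm_of_nonneg (hν i)]
  have h5 : (∑ i ∈ univ.erase o, ν i * ‖e i‖) ^ 2 ≤
      (∑ i ∈ univ.erase o, ν i) * ∑ i ∈ univ.erase o, ν i * ‖e i‖ ^ 2 := by
    apply Finset.sum_sq_le_sum_mul_sum_of_sq_le_mul
    · intro i _; exact hν i
    · intro i _; exact mul_nonneg (hν i) (sq_nonneg _)
    · intro i _; exact le_of_eq (by ring)
  rw [h2, h3] at h5
  have h6 : (ν o * ‖e o‖) ^ 2 ≤ (∑ i ∈ univ.erase o, ν i * ‖e i‖) ^ 2 :=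
    pow_le_pow_left₀ (mul_nonneg (hν o) (norm_nonneg _)) h4 2
  nlinarith

/-- the two mean identities. -/
lemma mean_a {ι : Type*} [Fintype ι] (ν : ι → ℝ)
    (hs : ∑ i, ν i = 1) (a : ι → ℂ) (x : ℂ) (t : ℝ)
    (hm : ∑ i, (ν i : ℂ) * a i = t + x / 2) :
    ∑ i, ν i * ‖a i‖ ^ 2 - ∑ i, ν i * ‖a i - x‖ ^ 2 = 2 * t * x.re := by
  have hr : ∑ i, ν i * (a i).re = t + x.re / 2 := by
    have := congrArg Complex.re hm
    simpa using this
  have hi : ∑ i, ν i * (a i).im = x.im / 2 := by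
    have := congrArg Complex.im hm
    simpa using this
  have e : ∀ i, ν i * ‖a i‖ ^ 2 - ν i * ‖a i - x‖ ^ 2 =
      2 * x.re * (ν i * (a i).re) + 2 * x.im * (ν i * (a i).im)
        - (x.re ^ 2 + x.im ^ 2) * ν i := by
    intro i
    rw [Complex.sq_norm, Complex.sq_norm, Complex.normSq_apply, Complex.normSq_apply,
      Complex.sub_re, Complex.sub_im]
    ring
  rw [← Finset.sum_sub_distrib, Finset.sum_congr rfl (fun i _ => e i), Finset.sum_sub_distrib,
    Finset.sum_add_distrib, ← Finset.mul_sum, ← Finset.mul_sum, ← Finset.mul_sum, hr, hi, hs]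
  ring

lemma mean_c {ι : Type*} [Fintype ι] [DecidableEq ι] (ν : ι → ℝ) (hν : ∀ i, 0 ≤ ν i)
    (hs : ∑ i, ν i = 1) (o : ι) (ho : ν o < 1) (a : ι → ℂ) (x : ℂ) (t : ℝ)
    (hm : ∑ i, (ν i : ℂ) * a i = t + x / 2) :
    2 * t ^ 2 + 2 * (ν o / (1 - ν o)) * ‖a o - (t + x / 2)‖ ^ 2 ≤
      ∑ i, ν i * ‖a i‖ ^ 2 + ∑ i, ν i * ‖a i - x‖ ^ 2 := by
  have hr : ∑ i, ν i * (a i).re = t + x.re / 2 := by
    have := congrArg Complex.re hm
    simpa using this
  have hi : ∑ i, ν i * (a i).im = x.im / 2 := by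
    have := congrArg Complex.im hm
    simpa using this
  have hsC : ∑ i, (ν i : ℂ) = 1 := by exact_mod_cast hs
  have hv := atom_var ν hν hs o (fun i => a i - (t + x / 2)) (by
    simp only [mul_sub]
    rw [Finset.sum_sub_distrib, hm, ← Finset.sum_mul, hsC]; ring)
  have e : ∀ i, ν i * ‖a i - (t + x / 2)‖ ^ 2 =
      (ν i * ‖a i‖ ^ 2 + ν i * ‖a i - x‖ ^ 2) / 2 - 2 * t * (ν i * (a i).re)
        - (x.re ^ 2 + x.im ^ 2) / 4 * ν i + (t ^ 2 + t * x.re) * ν i := by
    intro i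
    rw [Complex.sq_norm, Complex.sq_norm, Complex.sq_norm, Complex.normSq_apply,
      Complex.normSq_apply, Complex.normSq_apply]
    have h1 : (x / 2).re = x.re / 2 := by simp
    have h2 : (x / 2).im = x.im / 2 := by simp
    simp only [Complex.sub_re, Complex.sub_im, Complex.add_re, Complex.add_im, Complex.ofReal_re,
      Complex.ofReal_im, h1, h2]
    ring
  have e2 : ∑ i, ν i * ‖a i - (t + x / 2)‖ ^ 2 =
      (∑ i, ν i * ‖a i‖ ^ 2 + ∑ i, ν i * ‖a i - x‖ ^ 2) / 2 - t ^ 2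
        - (x.re ^ 2 + x.im ^ 2) / 4 := by
    rw [Finset.sum_congr rfl (fun i _ => e i)]
    simp only [Finset.sum_sub_distrib, Finset.sum_add_distrib, ← Finset.mul_sum,
      ← Finset.sum_div, hr, hs]
    ring
  rw [e2] at hv
  have h1 : 0 < 1 - ν o := by linarith
  have h2 : ν o / (1 - ν o) * ‖a o - (t + x / 2)‖ ^ 2 ≤
      (∑ i, ν i * ‖a i‖ ^ 2 + ∑ i, ν i * ‖a i - x‖ ^ 2) / 2 - t ^ 2
        - (x.re ^ 2 + x.im ^ 2) / 4 := by
    rw [div_mul_eq_mul_div, div_le_iff₀ h1]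
    linarith
  nlinarith [sq_nonneg x.re, sq_nonneg x.im]

/-- The energy inequality. -/
theorem energy {T B Ka : PowerSeries ℝ} (hg : Good T B Ka) {ι : Type*} [Fintype ι]
    [DecidableEq ι] (ν : ι → ℝ) (hν : ∀ i, 0 ≤ ν i) (hs : ∑ i, ν i = 1)
    (z : ι → ℂ) (hz : ∀ i, ‖z i‖ = 1) (o : ι) (hzo : z o = 1) (ho : ν o < 1)
    (Xs : PowerSeries ℂ)
    (hX : Xs * (∑ i, C (ν i : ℂ) * rescale (z i) (cx (2 * T - 1))) = cx (2 * T - 1)) (n : ℕ) :
    ν o / (1 - ν o) * ‖coeff n (Ks ℂ * (Xs - 1))‖ ^ 2 ≤ 2 * (coeff n (Ks ℂ * (Xs - 1))).re := by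
  obtain ⟨G, hG⟩ : ∃ G, G = 2 * T - 1 := ⟨_, rfl⟩
  have hG0 := hg.G0
  rw [← hG] at hX hG0
  have hsC : ∑ i, (ν i : ℂ) = 1 := by exact_mod_cast hs
  have hcG : cx G = 2 * cx T - 1 := by rw [hG, map_sub, map_mul, map_one, map_ofNat]
  -- constant term of Xs
  have hX0 : constantCoeff Xs = 1 := by
    have := congrArg constantCoeff hX
    rw [map_mul, map_sum, constantCoeff_cx, hG0] at this
    simp only [map_mul, constantCoeff_rescale, constantCoeff_cx, hG0, constantCoeff_C] at this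
    simpa [hsC] using this
  -- the vectors
  obtain ⟨S, hS⟩ : ∃ S : ι → PowerSeries ℂ, S = fun i => rescale (z i) (cx T) * Xs := ⟨_, rfl⟩
  have hSi : ∀ i, S i = rescale (z i) (cx T) * Xs := fun i => by rw [hS]
  have hresc : ∀ i, rescale (z i) (cx G) = 2 * rescale (z i) (cx T) - 1 := by
    intro i
    rw [hcG, map_sub, map_mul, map_one, map_ofNat]
  -- mean
  have hmean : 2 * ∑ i, C (ν i : ℂ) * S i = cx G + Xs := by
    have e1 : ∑ i, C (ν i : ℂ) * rescale (z i) (cx G) =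
        2 * (∑ i, C (ν i : ℂ) * rescale (z i) (cx T)) - 1 := by
      simp only [hresc, mul_sub, Finset.sum_sub_distrib, mul_one]
      rw [← map_sum, hsC, map_one, Finset.mul_sum]
      congr 1
      apply Finset.sum_congr rfl
      intro i _; ring
    have e2 : ∑ i, C (ν i : ℂ) * S i = (∑ i, C (ν i : ℂ) * rescale (z i) (cx T)) * Xs := by
      rw [Finset.sum_mul]
      apply Finset.sum_congr rfl
      intro i _
      rw [hSi]; ring
    rw [e2]
    rw [e1] at hX
    linear_combination hX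
  have hS0 : ∀ i, constantCoeff (S i) = 1 := by
    intro i
    rw [hSi, map_mul, constantCoeff_rescale, constantCoeff_cx, hg.T0, hX0]; simp
  have hSB : ∀ i, S i - Xs = rescale (z i) (cx B) * S i := by
    intro i
    have h1 : cx T * (1 - cx B) = 1 := by
      rw [← map_one cx, ← map_sub, ← map_mul, hg.TB]
    have h2 : rescale (z i) (cx T) * (1 - rescale (z i) (cx B)) = 1 := by
      have := congrArg (rescale (z i)) h1
      rw [map_mul, map_sub, map_one] at this
      exact this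
    rw [hSi]
    linear_combination Xs * h2
  have hSo : 2 * S o - (cx G + Xs) = cx G * (Xs - 1) := by
    rw [hSi, hzo]
    have : rescale (1 : ℂ) (cx T) = cx T := by rw [rescale_one]; rfl
    rw [this, hcG]; ring
  -- E
  obtain ⟨E, hE⟩ : ∃ E : ℕ → ℝ, E = fun j => ∑ i, ν i * ‖coeff j (S i)‖ ^ 2 := ⟨_, rfl⟩
  obtain ⟨E', hE'⟩ : ∃ E' : ℕ → ℝ, E' = fun j => ∑ i, ν i * ‖coeff j (S i) - coeff j Xs‖ ^ 2 :=
    ⟨_, rfl⟩
  have hGj : ∀ j, 1 ≤ j → coeff j G = 2 * coeff j T := by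
    intro j hj
    have : (2 : PowerSeries ℝ) = C 2 := (map_ofNat C 2).symm
    rw [hG, map_sub, coeff_one, if_neg (by omega), this, coeff_C_mul, sub_zero]
  have hGpos : ∀ j, 0 < coeff j G := by
    intro j
    rcases Nat.eq_zero_or_pos j with rfl | hj
    · rw [coeff_zero_eq_constantCoeff_apply, hG0]; norm_num
    · rw [hGj j hj]
      have := hg.Tpos j
      linarith
  have hmj : ∀ j, 1 ≤ j → ∑ i, (ν i : ℂ) * coeff j (S i) =
      ((coeff j T : ℝ) : ℂ) + coeff j Xs / 2 := by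
    intro j hj
    have h1 := congrArg (coeff j) hmean
    have h2 : (2 : PowerSeries ℂ) = C 2 := (map_ofNat C 2).symm
    rw [h2, coeff_C_mul, map_sum, map_add, coeff_cx, hGj j hj] at h1
    simp only [coeff_C_mul] at h1
    push_cast at h1
    linear_combination h1 / 2
  have hYj : ∀ j, 1 ≤ j → coeff j (S o) - (((coeff j T : ℝ) : ℂ) + coeff j Xs / 2) =
      coeff j (cx G * (Xs - 1)) / 2 := by
    intro j hj
    have h1 := congrArg (coeff j) hSo
    have h2 : (2 : PowerSeries ℂ) = C 2 := (map_ofNat C 2).symm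
    rw [map_sub, h2, coeff_C_mul, map_add, coeff_cx, hGj j hj] at h1
    push_cast at h1
    linear_combination h1 / 2
  have hEa : ∀ j, 1 ≤ j → E j - E' j = 2 * coeff j T * (coeff j Xs).re := by
    intro j hj
    rw [hE, hE']
    exact mean_a ν hs (fun i => coeff j (S i)) (coeff j Xs) (coeff j T) (hmj j hj)
  have hEc : ∀ j, 1 ≤ j → 2 * coeff j T ^ 2 +
      (ν o / (1 - ν o)) * (‖coeff j (cx G * (Xs - 1))‖ ^ 2 / 2) ≤ E j + E' j := by
    intro j hj
    have := mean_c ν hν hs o ho (fun i => coeff j (S i)) (coeff j Xs) (coeff j T) (hmj j hj)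
    rw [hYj j hj] at this
    rw [hE, hE']
    refine le_trans (le_of_eq ?_) this
    rw [norm_div]
    simp only [Complex.norm_ofNat]
    ring
  have hEb : ∀ j, 1 ≤ j → E' j ≤ coeff j T *
      ∑ p ∈ antidiagonal j, coeff p.1 B * (E p.2 / coeff p.2 T) := by
    intro j hj
    have hBT : ∑ p ∈ antidiagonal j, coeff p.1 B * coeff p.2 T = coeff j T := by
      rw [← coeff_mul]
      have : B * T = T - 1 := by linear_combination (-1 : PowerSeries ℝ) * hg.TB
      rw [this, map_sub, coeff_one, if_neg (by omega), sub_zero]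
    have hi : ∀ i, ‖coeff j (S i) - coeff j Xs‖ ^ 2 ≤ coeff j T *
        ∑ p ∈ antidiagonal j, coeff p.1 B * (‖coeff p.2 (S i)‖ ^ 2 / coeff p.2 T) := by
      intro i
      have h1 : ‖coeff j (S i) - coeff j Xs‖ ≤
          ∑ p ∈ antidiagonal j, coeff p.1 B * ‖coeff p.2 (S i)‖ := by
        rw [← map_sub, hSB, coeff_mul]
        refine (norm_sum_le _ _).trans (le_of_eq ?_)
        apply Finset.sum_congr rfl
        intro p _
        rw [norm_mul, coeff_rescale, norm_mul, norm_pow, hz, one_pow, one_mul, coeff_cx,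
          Complex.norm_real, Real.norm_of_nonneg (hg.Bnn _)]
      have h2 : (∑ p ∈ antidiagonal j, coeff p.1 B * ‖coeff p.2 (S i)‖) ^ 2 ≤
          (∑ p ∈ antidiagonal j, coeff p.1 B * coeff p.2 T) *
          ∑ p ∈ antidiagonal j, coeff p.1 B * (‖coeff p.2 (S i)‖ ^ 2 / coeff p.2 T) := by
        apply Finset.sum_sq_le_sum_mul_sum_of_sq_le_mul
        · intro p _; exact mul_nonneg (hg.Bnn _) (hg.Tpos _).le
        · intro p _
          exact mul_nonneg (hg.Bnn _) (div_nonneg (sq_nonneg _) (hg.Tpos _).le)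
        · intro p _
          have := (hg.Tpos p.2).ne'
          apply le_of_eq
          field_simp
      rw [hBT] at h2
      exact (pow_le_pow_left₀ (norm_nonneg _) h1 2).trans h2
    rw [hE', hE]
    calc ∑ i, ν i * ‖coeff j (S i) - coeff j Xs‖ ^ 2 ≤ ∑ i, ν i * (coeff j T *
        ∑ p ∈ antidiagonal j, coeff p.1 B * (‖coeff p.2 (S i)‖ ^ 2 / coeff p.2 T)) :=
          Finset.sum_le_sum fun i _ => mul_le_mul_of_nonneg_left (hi i) (hν i)
      _ = _ := by
        simp only [Finset.mul_sum]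
        rw [Finset.sum_comm]
        apply Finset.sum_congr rfl
        intro p _
        rw [Finset.sum_div, Finset.mul_sum, Finset.mul_sum]
        apply Finset.sum_congr rfl
        intro i _
        ring
  -- the series F
  obtain ⟨F, hF⟩ : ∃ F : PowerSeries ℝ, F = mk fun j => E j / coeff j T := ⟨_, rfl⟩
  have hFj : ∀ j, coeff j F = E j / coeff j T := fun j => by rw [hF, coeff_mk]
  have hF0 : coeff 0 F = 1 := by
    rw [hFj, hE, coeff_zero_eq_constantCoeff_apply, hg.T0]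
    simp only [coeff_zero_eq_constantCoeff_apply, hS0]
    simp [hs]
  have hBF : ∀ j, coeff j (B * F) = ∑ p ∈ antidiagonal j, coeff p.1 B * (E p.2 / coeff p.2 T) := by
    intro j
    rw [coeff_mul]
    apply Finset.sum_congr rfl
    intro p _
    rw [hFj]
  have hBF0 : coeff 0 (B * F) = 0 := by
    rw [coeff_zero_eq_constantCoeff_apply, map_mul, hg.B0, zero_mul]
  have hU : ∀ j, coeff j ((1 - B) * F) ≤
      coeff j (1 : PowerSeries ℝ) + 2 * (coeff j (Xs - 1)).re := by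
    intro j
    rcases Nat.eq_zero_or_pos j with rfl | hj
    · rw [sub_mul, one_mul, map_sub, hF0, hBF0]
      simp [hX0]
    · rw [sub_mul, one_mul, map_sub, hBF, hFj, coeff_one, if_neg (by omega), map_sub, coeff_one,
        if_neg (by omega), sub_zero, zero_add]
      have h1 := hEb j hj
      have h2 := hEa j hj
      have h3 := hg.Tpos j
      have h4 : E j / coeff j T = E' j / coeff j T + 2 * (coeff j Xs).re := by
        field_simp
        linarith
      have h5 : E' j / coeff j T ≤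
          ∑ p ∈ antidiagonal j, coeff p.1 B * (E p.2 / coeff p.2 T) := by
        rw [div_le_iff₀ h3, mul_comm]
        exact h1
      linarith
  have hW : ∀ j, coeff j G + (ν o / (1 - ν o)) * (‖coeff j (cx G * (Xs - 1))‖ ^ 2 / coeff j G) ≤
      coeff j ((1 + B) * F) := by
    intro j
    rcases Nat.eq_zero_or_pos j with rfl | hj
    · rw [add_mul, one_mul, map_add, hF0, hBF0, coeff_zero_eq_constantCoeff_apply, hG0]
      simp [hX0]
    · rw [add_mul, one_mul, map_add, hBF, hFj]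
      have h1 := hEb j hj
      have h2 := hEc j hj
      have h3 := hg.Tpos j
      have h5 : E' j / coeff j T ≤
          ∑ p ∈ antidiagonal j, coeff p.1 B * (E p.2 / coeff p.2 T) := by
        rw [div_le_iff₀ h3, mul_comm]
        exact h1
      have h6 : coeff j G + (ν o / (1 - ν o)) * (‖coeff j (cx G * (Xs - 1))‖ ^ 2 / coeff j G) ≤
          (E j + E' j) / coeff j T := by
        rw [le_div_iff₀ h3, hGj j hj]
        refine le_trans (le_of_eq ?_) h2
        field_simp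
      rw [add_div] at h6
      linarith
  have hKaU : Ks ℝ * ((1 - B) * F) = Ka * ((1 + B) * F) := by
    have h1 : Ka * G = Ks ℝ := by rw [hG]; exact hg.KG
    have h2 : G * (1 - B) = 1 + B := by rw [hG]; linear_combination 2 * hg.TB
    rw [← h1, ← h2]; ring
  -- final
  have hKs1 : ∀ m, coeff m (Ks ℝ) = 1 := fun m => by rw [Ks, coeff_mk]
  have hKs1' : ∀ m, coeff m (Ks ℂ) = 1 := fun m => by rw [Ks, coeff_mk]
  have hA : coeff n (Ks ℝ * ((1 - B) * F)) ≤ 1 + 2 * (coeff n (Ks ℂ * (Xs - 1))).re := by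
    rw [coeff_mul, coeff_mul, Complex.re_sum]
    have e1 : ∑ p ∈ antidiagonal n, coeff p.2 (1 : PowerSeries ℝ) = 1 := by
      have : coeff n (Ks ℝ * 1) = 1 := by rw [mul_one, hKs1]
      rw [coeff_mul] at this
      simpa [hKs1] using this
    rw [← e1, Finset.mul_sum, ← Finset.sum_add_distrib]
    apply Finset.sum_le_sum
    intro p _
    rw [hKs1, hKs1', one_mul, one_mul]
    exact hU p.2
  have hKaG : ∑ p ∈ antidiagonal n, coeff p.1 Ka * coeff p.2 G = 1 := by
    rw [← coeff_mul, hG, hg.KG, hKs1]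
  have hBd : 1 + (ν o / (1 - ν o)) * ∑ p ∈ antidiagonal n, coeff p.1 Ka *
      (‖coeff p.2 (cx G * (Xs - 1))‖ ^ 2 / coeff p.2 G) ≤ coeff n (Ka * ((1 + B) * F)) := by
    have e0 : ∀ w : ℝ, 1 + w = ∑ p ∈ antidiagonal n, coeff p.1 Ka * coeff p.2 G + w := by
      intro w; rw [hKaG]
    rw [coeff_mul, e0, Finset.mul_sum, ← Finset.sum_add_distrib]
    apply Finset.sum_le_sum
    intro p _
    have := mul_le_mul_of_nonneg_left (hW p.2) (hg.Knn p.1)
    refine le_trans (le_of_eq ?_) this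
    ring
  have hv : ‖coeff n (Ks ℂ * (Xs - 1))‖ ^ 2 ≤ ∑ p ∈ antidiagonal n, coeff p.1 Ka *
      (‖coeff p.2 (cx G * (Xs - 1))‖ ^ 2 / coeff p.2 G) := by
    have h0 : Ks ℂ * (Xs - 1) = cx Ka * (cx G * (Xs - 1)) := by
      have : cx Ka * cx G = Ks ℂ := by
        rw [← map_mul, hG, hg.KG]
        ext m
        rw [coeff_cx, hKs1, hKs1']; simp
      rw [← this]; ring
    rw [h0, coeff_mul]
    have h1 : ‖∑ p ∈ antidiagonal n, coeff p.1 (cx Ka) * coeff p.2 (cx G * (Xs - 1))‖ ≤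
        ∑ p ∈ antidiagonal n, coeff p.1 Ka * ‖coeff p.2 (cx G * (Xs - 1))‖ := by
      refine (norm_sum_le _ _).trans (le_of_eq ?_)
      apply Finset.sum_congr rfl
      intro p _
      rw [norm_mul, coeff_cx, Complex.norm_real, Real.norm_of_nonneg (hg.Knn _)]
    have h2 : (∑ p ∈ antidiagonal n, coeff p.1 Ka * ‖coeff p.2 (cx G * (Xs - 1))‖) ^ 2 ≤
        (∑ p ∈ antidiagonal n, coeff p.1 Ka * coeff p.2 G) *
        ∑ p ∈ antidiagonal n, coeff p.1 Ka *
      (‖coeff p.2 (cx G * (Xs - 1))‖ ^ 2 / coeff p.2 G) := by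
      apply Finset.sum_sq_le_sum_mul_sum_of_sq_le_mul
      · intro p _; exact mul_nonneg (hg.Knn _) (hGpos _).le
      · intro p _
        exact mul_nonneg (hg.Knn _) (div_nonneg (sq_nonneg _) (hGpos _).le)
      · intro p _
        have := (hGpos p.2).ne'
        apply le_of_eq
        field_simp
    rw [hKaG, one_mul] at h2
    exact (pow_le_pow_left₀ (norm_nonneg _) h1 2).trans h2
  have hc : 0 ≤ ν o / (1 - ν o) := div_nonneg (hν o) (by linarith)
  have h9 := mul_le_mul_of_nonneg_left hv hc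
  rw [hKaU] at hA
  linarith

end Pool.Agent.Q139.Baz
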