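import Pool.Agent.Q139.Baz.Atom

namespace Pool.Agent.Q139.Baz
open PowerSeries Finset

lemma exists_analytic (c : ℕ → ℂ) (hc : ∀ n, ‖c n‖ ≤ 2) : ∃ h : ℂ → ℂ,
    DifferentiableOn ℂ h (Metric.ball 0 1) ∧ ∀ n, tc h n = c n := by
  obtain ⟨p, hp⟩ : ∃ p, p = FormalMultilinearSeries.ofScalars ℂ c := ⟨_, rfl⟩
  have hr : 1 ≤ p.radius := by
    apply p.le_radius_of_bound 2 (r := 1)
    intro n
    rw [hp, FormalMultilinearSeries.ofScalars_norm]
    simpa using hc n
  have hb := (p.hasFPowerSeriesOnBall (lt_of_lt_of_le one_pos hr)).mono one_pos hr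
  refine ⟨p.sum, ?_, ?_⟩
  · have := hb.differentiableOn
    rwa [← ENNReal.ofReal_one, Metric.eball_ofReal] at this
  · intro n
    have h1 : HasFPowerSeriesAt p.sum p 0 := ⟨1, hb⟩
    have h2 := h1.analyticAt.hasFPowerSeriesAt
    have h3 := h1.eq_formalMultilinearSeries h2
    rw [hp] at h3
    have h4 := FormalMultilinearSeries.ofScalars_series_injective ℂ ℂ h3
    have h5 := congrFun h4 n
    rw [h5, tc, hp]

section
variable {f l : ℂ → ℂ}

/-- The main bound: coefficients of `(f(z)/z)^b`, `b > α`. -/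
theorem main_bound (h : LogBranch f l) {a b : ℝ} (ha : 0 < a) (ha1 : a ≤ 1) (hab : a < b)
    (hpos : ∀ z ∈ Metric.ball (0 : ℂ) 1,
      0 < (Complex.exp (((a : ℂ) - 1) * l z) * deriv f z).re) (m : ℕ) :
    ‖tc (fun z => Complex.exp (b * l z)) m‖ ≤ coeff m (pw (b / a) (2 * Tα a - 1)) := by
  obtain ⟨p, hp⟩ : ∃ p : ℂ → ℂ, p = fun z => Complex.exp (((a : ℂ) - 1) * l z) * deriv f z :=
    ⟨_, rfl⟩
  have hpd : DifferentiableOn ℂ p (Metric.ball 0 1) := by rw [hp]; exact p_diff h a
  have hp0 : p 0 = 1 := by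
    rw [hp]
    simp only
    rw [deriv_f h zero_mem, h.2.1]; simp
  have hpp : ∀ z ∈ Metric.ball (0 : ℂ) 1, 0 < (p z).re := by rw [hp]; exact hpos
  have hg := good_alpha ha ha1
  have hG0 := hg.G0
  have hδ : 1 < b / a := by rw [lt_div_iff₀ ha]; linarith
  obtain ⟨H, hH⟩ : ∃ H, H = ts (fun z => Complex.exp (a * l z)) := ⟨_, rfl⟩
  have hH0 : constantCoeff H = 1 := by rw [hH, constantCoeff_ts, h.2.1]; simp
  have hF : ts (fun z => Complex.exp (b * l z)) = pw ((b / a : ℝ) : ℂ) H := by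
    have := isPow_exp h ha.ne' b
    rw [← hH] at this
    exact IsPow.unique hH0 this (isPow_pw _ hH0)
  have hHk : ∀ k, coeff k H = ((a / (k + a) : ℝ) : ℂ) * tc p k := by
    intro k
    rw [hH, coeff_ts, coeff_H h ha k, hp]
  have hGk : ∀ k, 1 ≤ k → coeff k (2 * Tα a - 1) = 2 * (a / (k + a)) := by
    intro k hk
    have : (2 : PowerSeries ℝ) = C 2 := (map_ofNat C 2).symm
    rw [map_sub, coeff_one, if_neg (by omega), this, coeff_C_mul, Tα, coeff_mk]
    ring
  -- bound for every R < 1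
  have key : ∀ R : ℝ, 0 < R → R < 1 →
      R ^ m * ‖tc (fun z => Complex.exp (b * l z)) m‖ ≤ coeff m (pw (b / a) (2 * Tα a - 1)) := by
    intro R hR0 hR1
    obtain ⟨N, μ, ζ, hA, hmom⟩ := exists_atoms hpd hp0 hpp hR0 hR1 m
    have hb := bound_all hg hA hδ m
    have e1 : coeff m (pw ((b / a : ℝ) : ℂ) (Hs μ ζ (2 * Tα a - 1))) =
        coeff m (pw ((b / a : ℝ) : ℂ) (rescale (R : ℂ) H)) := by
      apply coeff_pw_congr _ (Hs0 hA hG0) (by rw [constantCoeff_rescale, hH0])
      intro k hk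
      rcases Nat.eq_zero_or_pos k with rfl | hk0
      · rw [coeff_zero_eq_constantCoeff_apply, coeff_zero_eq_constantCoeff_apply,
          constantCoeff_rescale, hH0, Hs0 hA hG0]
      · rw [coeff_Hs, hmom k hk0 hk, coeff_rescale, hHk, hGk k hk0]
        push_cast
        ring
    rw [e1, pw_rescale _ _ hH0, coeff_rescale, ← hF, coeff_ts, norm_mul, norm_pow,
      Complex.norm_real, Real.norm_of_nonneg hR0.le] at hb
    exact hb
  have hlim : Filter.Tendsto (fun R : ℝ => R ^ m * ‖tc (fun z => Complex.exp (b * l z)) m‖)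
      (nhdsWithin 1 (Set.Iio 1)) (nhds (1 ^ m * ‖tc (fun z => Complex.exp (b * l z)) m‖)) := by
    apply Filter.Tendsto.mono_left _ nhdsWithin_le_nhds
    exact ((continuous_pow m).mul continuous_const).tendsto 1
  rw [one_pow, one_mul] at hlim
  apply le_of_tendsto hlim
  have h1 : Set.Ioo (0 : ℝ) 1 ∈ nhdsWithin (1 : ℝ) (Set.Iio 1) := Ioo_mem_nhdsLT one_pos
  filter_upwards [h1] with R hR
  exact key R hR.1 hR.2

lemma ts_koebe {p : ℂ → ℂ} (hp : DifferentiableOn ℂ p (Metric.ball 0 1))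
    (h : ∀ z ∈ Metric.ball (0 : ℂ) 1, p z = (1 + z) / (1 - z)) : ts p = 2 * Ks ℂ - 1 := by
  have hpa : AnalyticAt ℂ p 0 := anal hp zero_mem
  have h1 : AnalyticAt ℂ (fun z : ℂ => (1 : ℂ) + (-1) * z) 0 := by fun_prop
  have hc : AnalyticAt ℂ (fun _ : ℂ => (1 : ℂ)) 0 := analyticAt_const
  have hm : AnalyticAt ℂ (fun z : ℂ => (-1 : ℂ) * z) 0 := by fun_prop
  have hone : ts (fun _ : ℂ => (1 : ℂ)) = 1 := by
    ext n
    rw [coeff_ts, tc, coeff_one, iteratedDeriv_const]
    split_ifs with h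
    · rw [h]; simp
    · simp
  have e1 : ts (fun z : ℂ => (1 : ℂ) + (-1) * z) = 1 - X := by
    rw [ts_add hc hm, ts_const_mul ana_id, ts_id, hone, map_neg, map_one]; ring
  have e2 : ts (fun z : ℂ => (1 : ℂ) + z) = 1 + X := by
    rw [ts_add hc ana_id, ts_id, hone]
  have e3 : (1 - X) * ts p = 1 + X := by
    rw [← e1, ← ts_mul h1 hpa, ← e2]
    apply ts_congr
    filter_upwards [ball_nhds] with z hz
    rw [h z hz]
    have : (1 : ℂ) - z ≠ 0 := by
      intro h0
      rw [mem_ball_zero_iff] at hz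
      have : z = 1 := by linear_combination -h0
      rw [this, norm_one] at hz
      exact lt_irrefl _ hz
    field_simp
    ring
  have hK := Ks_mul ℂ
  linear_combination Ks ℂ * e3 - (ts p + 1) * hK

lemma coeff_koebe (k : ℕ) (hk : 1 ≤ k) : coeff k (2 * Ks ℂ - 1 : PowerSeries ℂ) = 2 := by
  have : (2 : PowerSeries ℂ) = C 2 := (map_ofNat C 2).symm
  rw [map_sub, coeff_one, if_neg (by omega), this, coeff_C_mul, Ks, coeff_mk]
  ring

lemma hs_extremal (h : LogBranch f l) {a : ℝ} (ha : 0 < a)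
    (hext : ∀ z ∈ Metric.ball (0 : ℂ) 1,
      Complex.exp (((a : ℂ) - 1) * l z) * deriv f z = (1 + z) / (1 - z)) :
    ts (fun z => Complex.exp (a * l z)) = cx (2 * Tα a - 1) := by
  have h1 := ts_koebe (p_diff h a) hext
  ext k
  rw [coeff_ts, coeff_H h ha k, coeff_cx]
  have h2 := congrArg (coeff k) h1
  rw [coeff_ts] at h2
  rw [h2]
  rcases Nat.eq_zero_or_pos k with rfl | hk
  · have e1 : coeff 0 (2 * Ks ℂ - 1 : PowerSeries ℂ) = 1 := by
      have : (2 : PowerSeries ℂ) = C 2 := (map_ofNat C 2).symm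
      rw [map_sub, coeff_one, if_pos rfl, this, coeff_C_mul, Ks, coeff_mk]
      ring
    have e2 : coeff 0 (2 * Tα a - 1) = 1 := by
      have : (2 : PowerSeries ℝ) = C 2 := (map_ofNat C 2).symm
      rw [map_sub, coeff_one, if_pos rfl, this, coeff_C_mul, Tα, coeff_mk]
      push_cast
      rw [zero_add, div_self ha.ne']
      norm_num
    have e3 : a / (((0 : ℕ) : ℝ) + a) = 1 := by
      push_cast
      rw [zero_add, div_self ha.ne']
    rw [e1, e2, e3]; simp
  · have e2 : coeff k (2 * Tα a - 1) = 2 * (a / (k + a)) := by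
      have : (2 : PowerSeries ℝ) = C 2 := (map_ofNat C 2).symm
      rw [map_sub, coeff_one, if_neg (by omega), this, coeff_C_mul, Tα, coeff_mk]
      ring
    rw [coeff_koebe k hk, e2]
    push_cast
    ring

/-- coefficients of powers of the extremal function. -/
theorem main_extremal (h : LogBranch f l) {a b : ℝ} (ha : 0 < a) (ha1 : a ≤ 1)
    (hext : ∀ z ∈ Metric.ball (0 : ℂ) 1,
      Complex.exp (((a : ℂ) - 1) * l z) * deriv f z = (1 + z) / (1 - z)) (m : ℕ) :
    tc (fun z => Complex.exp (b * l z)) m =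
      ((coeff m (pw (b / a) (2 * Tα a - 1)) : ℝ) : ℂ) := by
  have hg := good_alpha ha ha1
  have hG0 := hg.G0
  have h1 := hs_extremal h ha hext
  have h2 := isPow_exp h ha.ne' b
  rw [h1] at h2
  have h0 : constantCoeff (cx (2 * Tα a - 1)) = 1 := by rw [constantCoeff_cx, hG0]; simp
  have h3 := IsPow.unique h0 h2 (isPow_pw _ h0)
  rw [← coeff_ts, h3, pw_cx _ hG0, coeff_cx]

lemma tc_f (h : LogBranch f l) (n : ℕ) :
    tc f (n + 1) = tc (fun z => Complex.exp (((1 : ℝ) : ℂ) * l z)) n := by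
  have h1 := congrArg (coeff (n+1)) (ts_f h)
  rw [coeff_ts, coeff_succ_X_mul, coeff_ts] at h1
  rw [h1, Complex.ofReal_one]

end

lemma coeff_dd (G : PowerSeries ℝ) (n : ℕ) :
    coeff (n+1) (1 - (1 - X) * G) = coeff n G - coeff (n+1) G := by
  rw [map_sub, coeff_one, if_neg (by omega), sub_mul, one_mul, map_sub, coeff_succ_X_mul]
  ring

lemma cx_dd (G : PowerSeries ℝ) : cx (1 - (1 - X) * G) = 1 - (1 - X) * cx G := by
  have hcX : cx X = (X : PowerSeries ℂ) := by simp [cx]
  rw [map_sub, map_mul, map_sub, map_one, hcX]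

/-- existence of the extremal function. -/
theorem exists_extremal {a : ℝ} (ha : 0 < a) (ha1 : a ≤ 1) : ∃ g l : ℂ → ℂ, LogBranch g l ∧
    ∀ z ∈ Metric.ball (0 : ℂ) 1,
      Complex.exp (((a : ℂ) - 1) * l z) * deriv g z = (1 + z) / (1 - z) := by
  have hg := good_alpha ha ha1
  have hG0 := hg.G0
  have hGk : ∀ k, 1 ≤ k → coeff k (2 * Tα a - 1) = 2 * (a / (k + a)) := by
    intro k hk
    have : (2 : PowerSeries ℝ) = C 2 := (map_ofNat C 2).symm
    rw [map_sub, coeff_one, if_neg (by omega), this, coeff_C_mul, Tα, coeff_mk]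
    ring
  obtain ⟨H, hHd, hHc⟩ := exists_analytic (fun n => ((coeff n (2 * Tα a - 1) : ℝ) : ℂ)) (by
    intro n
    rw [Complex.norm_real, Real.norm_eq_abs]
    rcases Nat.eq_zero_or_pos n with rfl | hn
    · rw [coeff_zero_eq_constantCoeff_apply, hG0]; norm_num
    · rw [hGk n hn]
      have h1 : 0 ≤ a / (n + a) := by positivity
      have h2 : a / (n + a) ≤ 1 := by
        rw [div_le_one (by positivity)]
        have : (0 : ℝ) ≤ n := Nat.cast_nonneg n
        linarith
      rw [abs_of_nonneg (by linarith)]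
      linarith)
  have hHts : ts H = cx (2 * Tα a - 1) := by
    ext n
    rw [coeff_ts, hHc, coeff_cx]
  have hH0 : H 0 = 1 := by
    rw [← tc_zero H, hHc, coeff_zero_eq_constantCoeff_apply, hG0]; simp
  -- the function (1 - z) H(z) and its deviation from 1
  obtain ⟨d, hd⟩ : ∃ d : ℕ → ℝ, d = fun n => coeff n (1 - (1 - X) * (2 * Tα a - 1)) := ⟨_, rfl⟩
  have hd0 : d 0 = 0 := by
    rw [hd]; simp only
    rw [coeff_zero_eq_constantCoeff_apply, map_sub, map_mul, hG0]; simp
  have hdsum : ∀ n, ∑ k ∈ range (n+1), d k = 1 - coeff n (2 * Tα a - 1) := by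
    intro n
    induction n with
    | zero =>
      rw [zero_add, sum_range_one, hd0, coeff_zero_eq_constantCoeff_apply, hG0]; ring
    | succ n ih =>
      rw [Finset.sum_range_succ, ih, hd]
      simp only
      rw [coeff_dd]
      ring
  have hdnn : ∀ k, 0 ≤ d k := by
    intro k
    rcases k with _ | k
    · rw [hd0]
    · rw [hd]
      simp only
      rw [coeff_dd, hGk (k+1) (by omega)]
      rcases Nat.eq_zero_or_pos k with rfl | hk
      · rw [coeff_zero_eq_constantCoeff_apply, hG0]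
        have : a / (((0+1 : ℕ) : ℝ) + a) ≤ 1/2 := by
          rw [div_le_div_iff₀ (by positivity) (by norm_num)]
          push_cast
          linarith
        linarith
      · rw [hGk k hk]
        have : a / (((k+1 : ℕ) : ℝ) + a) ≤ a / ((k : ℝ) + a) := by
          apply div_le_div_of_nonneg_left ha.le (by positivity)
          push_cast; linarith
        linarith
  have hGnn : ∀ n, 0 ≤ coeff n (2 * Tα a - 1) := by
    intro n
    rcases Nat.eq_zero_or_pos n with rfl | hn
    · rw [coeff_zero_eq_constantCoeff_apply, hG0]; norm_num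
    · rw [hGk n hn]; positivity
  have hDan : DifferentiableOn ℂ (fun z : ℂ => 1 + (-1) * ((1 + (-1) * z) * H z))
      (Metric.ball 0 1) := by
    have h1 : DifferentiableOn ℂ (fun z : ℂ => (1 + (-1) * z)) (Metric.ball 0 1) := by fun_prop
    have h2 : DifferentiableOn ℂ (fun z : ℂ => (1 + (-1) * z) * H z) (Metric.ball 0 1) :=
      h1.mul hHd
    exact (h2.const_mul _).const_add _
  have hDtc : ∀ n, tc (fun z : ℂ => 1 + (-1) * ((1 + (-1) * z) * H z)) n = ((d n : ℝ) : ℂ) := by
    intro n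
    have hHa : AnalyticAt ℂ H 0 := anal hHd zero_mem
    have hc : AnalyticAt ℂ (fun _ : ℂ => (1 : ℂ)) 0 := analyticAt_const
    have hm : AnalyticAt ℂ (fun z : ℂ => (-1 : ℂ) * z) 0 := by fun_prop
    have h1 : AnalyticAt ℂ (fun z : ℂ => (1 : ℂ) + (-1) * z) 0 := by fun_prop
    have h2 : AnalyticAt ℂ (fun z : ℂ => (1 + (-1) * z) * H z) 0 := h1.mul hHa
    have h3 : AnalyticAt ℂ (fun z : ℂ => (-1 : ℂ) * ((1 + (-1) * z) * H z)) 0 :=
      analyticAt_const.mul h2
    have hone : ts (fun _ : ℂ => (1 : ℂ)) = 1 := by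
      ext n
      rw [coeff_ts, tc, coeff_one, iteratedDeriv_const]
      split_ifs with h
      · rw [h]; simp
      · simp
    have e1 : ts (fun z : ℂ => (1 : ℂ) + (-1) * z) = 1 - X := by
      rw [ts_add hc hm, ts_const_mul ana_id, ts_id, hone, map_neg, map_one]; ring
    have e2 : ts (fun z : ℂ => 1 + (-1) * ((1 + (-1) * z) * H z)) =
        cx (1 - (1 - X) * (2 * Tα a - 1)) := by
      rw [ts_add hc h3, ts_const_mul h2, ts_mul h1 hHa, e1, hone, hHts, cx_dd,
        map_neg C, map_one C]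
      ring
    rw [← coeff_ts, e2, coeff_cx, hd]
  have hDlt : ∀ z ∈ Metric.ball (0 : ℂ) 1, ‖1 + (-1) * ((1 + (-1) * z) * H z)‖ < 1 := by
    intro z hz
    rw [mem_ball_zero_iff] at hz
    have h1 := (taylor_hasSum hDan hz).tendsto_sum_nat
    have h2 : ∀ n, ‖∑ k ∈ range n, tc (fun z : ℂ => 1 + (-1) * ((1 + (-1) * z) * H z)) k * z ^ k‖
        ≤ ‖z‖ := by
      intro n
      refine (norm_sum_le _ _).trans ?_
      calc ∑ k ∈ range n, ‖tc (fun z : ℂ => 1 + (-1) * ((1 + (-1) * z) * H z)) k * z ^ k‖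
          ≤ ∑ k ∈ range n, d k * ‖z‖ := by
            apply Finset.sum_le_sum
            intro k _
            rw [hDtc, norm_mul, Complex.norm_real, Real.norm_of_nonneg (hdnn k), norm_pow]
            rcases Nat.eq_zero_or_pos k with rfl | hk
            · rw [hd0]; simp
            · apply mul_le_mul_of_nonneg_left _ (hdnn k)
              calc ‖z‖ ^ k ≤ ‖z‖ ^ 1 := pow_le_pow_of_le_one (norm_nonneg _) hz.le hk
                _ = ‖z‖ := pow_one _
        _ = (∑ k ∈ range n, d k) * ‖z‖ := by rw [Finset.sum_mul]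
        _ ≤ (∑ k ∈ range (n+1), d k) * ‖z‖ := by
            apply mul_le_mul_of_nonneg_right _ (norm_nonneg _)
            rw [Finset.sum_range_succ]
            linarith [hdnn n]
        _ ≤ 1 * ‖z‖ := by
            apply mul_le_mul_of_nonneg_right _ (norm_nonneg _)
            rw [hdsum n]
            linarith [hGnn n]
        _ = ‖z‖ := one_mul _
    have h3 : ‖1 + (-1) * ((1 + (-1) * z) * H z)‖ ≤ ‖z‖ :=
      le_of_tendsto h1.norm (Filter.Eventually.of_forall h2)
    exact lt_of_le_of_lt h3 hz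
  have hslit : ∀ z ∈ Metric.ball (0 : ℂ) 1, (1 - z) * H z ∈ Complex.slitPlane := by
    intro z hz
    left
    have h1 := hDlt z hz
    have h2 : (1 + (-1) * ((1 + (-1) * z) * H z)).re ≤ ‖1 + (-1) * ((1 + (-1) * z) * H z)‖ :=
      Complex.re_le_norm _
    have h3 : (1 - z) * H z = 1 - (1 + (-1) * ((1 + (-1) * z) * H z)) := by ring
    rw [h3, Complex.sub_re, Complex.one_re]
    linarith
  have hslit1 : ∀ z ∈ Metric.ball (0 : ℂ) 1, (1 - z) ∈ Complex.slitPlane := by
    intro z hz
    left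
    rw [mem_ball_zero_iff] at hz
    rw [Complex.sub_re, Complex.one_re]
    linarith [Complex.re_le_norm z]
  obtain ⟨l, hl⟩ : ∃ l : ℂ → ℂ, l = fun z => (1 / (a : ℂ)) *
      (Complex.log ((1 - z) * H z) - Complex.log (1 - z)) := ⟨_, rfl⟩
  have haC : (a : ℂ) ≠ 0 := by exact_mod_cast ha.ne'
  have hlexp : ∀ z ∈ Metric.ball (0 : ℂ) 1, Complex.exp (a * l z) = H z := by
    intro z hz
    rw [hl]
    simp only
    rw [← mul_assoc, mul_one_div_cancel haC, one_mul, Complex.exp_sub,
      Complex.exp_log (Complex.slitPlane_ne_zero (hslit z hz)),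
      Complex.exp_log (Complex.slitPlane_ne_zero (hslit1 z hz))]
    have := Complex.slitPlane_ne_zero (hslit1 z hz)
    field_simp
  have hld : DifferentiableOn ℂ l (Metric.ball 0 1) := by
    rw [hl]
    apply DifferentiableOn.const_mul
    apply DifferentiableOn.sub
    · apply DifferentiableOn.clog _ hslit
      have h1 : DifferentiableOn ℂ (fun z : ℂ => (1 - z)) (Metric.ball 0 1) := by fun_prop
      exact h1.mul hHd
    · apply DifferentiableOn.clog _ hslit1
      fun_prop
  have hl0 : l 0 = 0 := by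
    rw [hl]; simp [hH0]
  have hLB : LogBranch (fun z => z * Complex.exp (l z)) l := ⟨hld, hl0, fun z _ => rfl⟩
  refine ⟨fun z => z * Complex.exp (l z), l, hLB, ?_⟩
  -- the differential equation
  obtain ⟨p, hp⟩ : ∃ p : ℂ → ℂ, p = fun z => Complex.exp (((a : ℂ) - 1) * l z) *
      deriv (fun z => z * Complex.exp (l z)) z := ⟨_, rfl⟩
  have hpd : DifferentiableOn ℂ p (Metric.ball 0 1) := by rw [hp]; exact p_diff hLB a
  obtain ⟨q, hq⟩ : ∃ q : ℂ → ℂ, q = fun z => (1 + z) / (1 - z) := ⟨_, rfl⟩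
  have hqd : DifferentiableOn ℂ q (Metric.ball 0 1) := by
    rw [hq]
    apply DifferentiableOn.div
    · fun_prop
    · fun_prop
    · intro z hz
      exact Complex.slitPlane_ne_zero (hslit1 z hz)
  have hqts : ts q = 2 * Ks ℂ - 1 := ts_koebe hqd (fun z _ => by rw [hq])
  have hexpH : ts (fun z => Complex.exp (a * l z)) = ts H := by
    apply ts_congr
    filter_upwards [ball_nhds] with z hz
    exact hlexp z hz
  have hptc : ∀ k, tc p k = tc q k := by
    intro k
    have h1 := coeff_H hLB ha k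
    rw [← coeff_ts, hexpH, coeff_ts, hHc] at h1
    rw [← hp] at h1
    rw [← coeff_ts q, hqts]
    rcases Nat.eq_zero_or_pos k with rfl | hk
    · rw [tc_zero]
      have e1 : coeff 0 (2 * Ks ℂ - 1 : PowerSeries ℂ) = 1 := by
        have : (2 : PowerSeries ℂ) = C 2 := (map_ofNat C 2).symm
        rw [map_sub, coeff_one, if_pos rfl, this, coeff_C_mul, Ks, coeff_mk]
        ring
      rw [e1, hp]
      simp only
      rw [deriv_f hLB zero_mem, hl0]; simp
    · rw [coeff_koebe k hk]
      rw [hGk k hk] at h1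
      have hk2 : (k : ℂ) + a ≠ 0 := by
        have : (0 : ℝ) < k + a := by positivity
        exact_mod_cast this.ne'
      push_cast at h1
      have h2 : ((a : ℂ) / (k + a)) ≠ 0 := div_ne_zero haC hk2
      apply mul_left_cancel₀ h2
      rw [← h1]; ring
  intro z hz
  have h1 := taylor_hasSum hpd (z := z) (by simpa using hz)
  have h2 := taylor_hasSum hqd (z := z) (by simpa using hz)
  have h3 : (fun k => tc p k * z ^ k) = fun k => tc q k * z ^ k := by
    funext k; rw [hptc]
  rw [h3] at h1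
  have h4 := h1.unique h2
  rw [hp, hq] at h4
  exact h4

end Pool.Agent.Q139.Baz
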