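import Pool.Agent.Q139.Baz.Ser

namespace Pool.Agent.Q139.Baz
open PowerSeries Finset

/-- all coefficients are nonnegative -/
def NN (P : PowerSeries ℝ) : Prop := ∀ n, 0 ≤ coeff n P

lemma NN.mul {P Q : PowerSeries ℝ} (hP : NN P) (hQ : NN Q) : NN (P * Q) := by
  intro n
  rw [coeff_mul]
  exact Finset.sum_nonneg fun p _ => mul_nonneg (hP _) (hQ _)

lemma NN.add {P Q : PowerSeries ℝ} (hP : NN P) (hQ : NN Q) : NN (P + Q) := by
  intro n
  rw [map_add]
  exact add_nonneg (hP _) (hQ _)

lemma NN_C {a : ℝ} (ha : 0 ≤ a) : NN (C a) := by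
  intro n
  rw [coeff_C]
  split_ifs
  · exact ha
  · exact le_refl _

lemma NN.D {P : PowerSeries ℝ} (hP : NN P) : NN (D P) := by
  intro n
  rw [coeff_D]
  exact mul_nonneg (Nat.cast_nonneg _) (hP _)

lemma NN_inv {d : PowerSeries ℝ} (hd : NN d) (h0 : constantCoeff d = 0) : NN (1 - d)⁻¹ := by
  have hne : constantCoeff (1 - d) ≠ 0 := by simp [h0]
  have h1 : (1 - d) * (1 - d)⁻¹ = 1 := PowerSeries.mul_inv_cancel _ hne
  have h2 : (1 - d)⁻¹ = 1 + d * (1 - d)⁻¹ := by linear_combination h1
  intro n
  induction n using Nat.strong_induction_on with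
  | _ n ih =>
    rw [h2, map_add, coeff_mul]
    apply add_nonneg
    · rw [coeff_one]; split_ifs <;> norm_num
    · apply Finset.sum_nonneg
      intro p hp
      rw [HasAntidiagonal.mem_antidiagonal] at hp
      rcases Nat.eq_zero_or_pos p.1 with h | h
      · rw [h, coeff_zero_eq_constantCoeff_apply, h0, zero_mul]
      · exact mul_nonneg (hd _) (ih _ (by omega))

lemma NN_of_D {P V : PowerSeries ℝ} (h0 : constantCoeff P = 1) (hV : NN V)
    (hV0 : constantCoeff V = 0) (h : D P = P * V) : NN P := by
  intro n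
  induction n using Nat.strong_induction_on with
  | _ n ih =>
    rcases Nat.eq_zero_or_pos n with rfl | hn
    · rw [coeff_zero_eq_constantCoeff_apply, h0]; norm_num
    · have h1 := congrArg (coeff n) h
      rw [coeff_D, coeff_mul] at h1
      have h2 : 0 ≤ ∑ p ∈ antidiagonal n, coeff p.1 P * coeff p.2 V := by
        apply Finset.sum_nonneg
        intro p hp
        rw [HasAntidiagonal.mem_antidiagonal] at hp
        rcases Nat.eq_zero_or_pos p.2 with h | h
        · rw [h, coeff_zero_eq_constantCoeff_apply, hV0, mul_zero]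
        · exact mul_nonneg (ih _ (by omega)) (hV _)
      rw [← h1] at h2
      have hn' : (0 : ℝ) < n := by exact_mod_cast hn
      exact nonneg_of_mul_nonneg_right h2 hn'

/-- the series `1 + z + z² + …` -/
noncomputable def Ks (K : Type*) [Field K] : PowerSeries K := mk fun _ => 1

lemma Ks_mul (K : Type*) [Field K] : Ks K * (1 - X) = 1 := mk_one_mul_one_sub_eq_one K

/-- the data used in the main argument -/
structure Good (T B Ka : PowerSeries ℝ) : Prop where
  T0 : constantCoeff T = 1
  Tpos : ∀ n, 0 < coeff n T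
  TB : T * (1 - B) = 1
  Bnn : NN B
  Knn : NN Ka
  KG : Ka * (2 * T - 1) = Ks ℝ
  DG : NN ((1 - X) * D (2 * T - 1))

lemma Good.B0 {T B Ka : PowerSeries ℝ} (h : Good T B Ka) : constantCoeff B = 0 := by
  have h1 := congrArg constantCoeff h.TB
  rw [map_mul, h.T0, map_sub, map_one] at h1
  linarith

lemma Good.G0 {T B Ka : PowerSeries ℝ} (h : Good T B Ka) : constantCoeff (2 * T - 1) = 1 := by
  rw [map_sub, map_mul, h.T0, map_one]
  have : constantCoeff (2 : PowerSeries ℝ) = 2 := by
    exact map_ofNat constantCoeff 2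
  rw [this]; norm_num

/-- powers of `G` have nonnegative coefficients. -/
lemma Good.pw_nn {T B Ka : PowerSeries ℝ} (h : Good T B Ka) {γ : ℝ} (hγ : 0 ≤ γ) :
    NN (pw γ (2 * T - 1)) := by
  have hG0 := h.G0
  obtain ⟨G, hG⟩ : ∃ G, G = 2 * T - 1 := ⟨_, rfl⟩
  rw [← hG] at hG0 ⊢
  have hB0 := h.B0
  have hGB : G * (1 - B) = 1 + B := by
    rw [hG]; linear_combination 2 * h.TB
  have hP := isPow_pw γ hG0
  obtain ⟨P, hPdef⟩ : ∃ P, P = pw γ G := ⟨_, rfl⟩
  rw [← hPdef] at hP ⊢
  have hBB : NN (1 - B * B)⁻¹ := NN_inv (h.Bnn.mul h.Bnn) (by simp [hB0])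
  have hC : (1 - B * B) * (1 - B * B)⁻¹ = 1 := PowerSeries.mul_inv_cancel _ (by simp [hB0])
  -- D of the relation
  have h1 : D G * (1 - B) - G * D B = D B := by
    have := congrArg D hGB
    rw [D_mul, D_add, D_sub, D_one] at this
    linear_combination this
  have hG1 : G ≠ 0 := by
    intro hh; rw [hh] at hG0; simp at hG0
  have hT1 : (1 - B) ≠ 0 := by
    intro hh
    have := h.TB
    rw [hh, mul_zero] at this
    exact zero_ne_one this
  have h2 : (1 - B * B) * D G = 2 * (G * D B) := by
    linear_combination (1 + B) * h1 - D B * hGB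
  have h3 : (1 - B * B) * D P = P * (C γ * (2 * D B)) := by
    apply mul_left_cancel₀ hG1
    linear_combination (1 - B * B) * hP.2 + C γ * P * h2
  have h4 : D P = P * (C γ * (2 * D B) * (1 - B * B)⁻¹) := by
    linear_combination (1 - B * B)⁻¹ * h3 - D P * hC
  refine NN_of_D hP.1 ?_ ?_ h4
  · refine ((NN_C hγ).mul ?_).mul hBB
    have : (2 : PowerSeries ℝ) * D B = D B + D B := by ring
    rw [this]
    exact h.Bnn.D.add h.Bnn.D
  · simp [constantCoeff_D]

/-! ### the sequence `α/(k+α)` -/

/-- `T = ∑ α/(k+α) z^k`. -/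
noncomputable def Tα (α : ℝ) : PowerSeries ℝ := mk fun k => α / (k + α)

lemma kaluza {T B : PowerSeries ℝ} (T0 : constantCoeff T = 1) (Tpos : ∀ n, 0 < coeff n T)
    (TB : T * (1 - B) = 1)
    (hk : ∀ n k, k ≤ n → coeff (n+1-k) T * coeff n T ≤ coeff (n+1) T * coeff (n-k) T) : NN B := by
  have hB0 : constantCoeff B = 0 := by
    have h1 := congrArg constantCoeff TB
    rw [map_mul, T0, map_sub, map_one] at h1
    linarith
  have hrec : ∀ n, coeff n T = coeff n (1 : PowerSeries ℝ) +
      ∑ p ∈ antidiagonal n, coeff p.1 B * coeff p.2 T := by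
    intro n
    have : T = 1 + B * T := by linear_combination TB
    conv_lhs => rw [this]
    rw [map_add, coeff_mul]
  have hrec1 : ∀ n, coeff (n+1) T = ∑ k ∈ range (n+1), coeff (k+1) B * coeff (n - k) T := by
    intro n
    rw [hrec (n+1), coeff_one, if_neg (by omega), zero_add,
      Finset.Nat.sum_antidiagonal_eq_sum_range_succ (fun a b => coeff a B * coeff b T) (n+1),
      Finset.sum_range_succ']
    rw [coeff_zero_eq_constantCoeff_apply, hB0, zero_mul, add_zero]
    apply Finset.sum_congr rfl
    intro k hk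
    rw [mem_range] at hk
    congr 3
    omega
  have main : ∀ n, 0 ≤ coeff (n+1) B := by
    intro n
    induction n using Nat.strong_induction_on with
    | _ n ih =>
      rcases Nat.eq_zero_or_pos n with rfl | hn
      · have h1 := hrec1 0
        simp only [zero_add, sum_range_one, Nat.sub_self] at h1
        rw [coeff_zero_eq_constantCoeff_apply, T0, mul_one] at h1
        rw [zero_add, ← h1]
        exact (Tpos 1).le
      · obtain ⟨m, rfl⟩ : ∃ m, n = m + 1 := ⟨n - 1, by omega⟩
        have h1 := hrec1 (m+1)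
        have h2 := hrec1 m
        rw [Finset.sum_range_succ, Nat.sub_self, coeff_zero_eq_constantCoeff_apply, T0,
          mul_one] at h1
        -- multiply by coeff (m+1) T
        have h3 : coeff (m+1) T * coeff (m+1+1) B =
            ∑ k ∈ range (m+1), coeff (k+1) B *
              (coeff (m+1+1) T * coeff (m-k) T - coeff (m+1-k) T * coeff (m+1) T) := by
          have e1 : ∑ k ∈ range (m+1), coeff (k+1) B *
              (coeff (m+1+1) T * coeff (m-k) T - coeff (m+1-k) T * coeff (m+1) T)
              = coeff (m+1+1) T * ∑ k ∈ range (m+1), coeff (k+1) B * coeff (m - k) T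
                - coeff (m+1) T * ∑ k ∈ range (m+1), coeff (k+1) B * coeff (m+1-k) T := by
            rw [Finset.mul_sum, Finset.mul_sum, ← Finset.sum_sub_distrib]
            apply Finset.sum_congr rfl
            intro k _
            ring
          rw [e1, ← h2]
          linear_combination coeff (m+1) T * (- h1)
        have h4 : 0 ≤ coeff (m+1) T * coeff (m+1+1) B := by
          rw [h3]
          apply Finset.sum_nonneg
          intro k hk'
          rw [mem_range] at hk'
          apply mul_nonneg (ih k (by omega))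
          have := hk (m+1) (k+1) (by omega)
          rw [show m + 1 + 1 - (k+1) = m + 1 - k by omega,
            show m + 1 - (k+1) = m - k by omega] at this
          linarith
        exact nonneg_of_mul_nonneg_right h4 (Tpos _)
  intro n
  cases n with
  | zero => rw [coeff_zero_eq_constantCoeff_apply, hB0]
  | succ n => exact main n

lemma good_alpha {α : ℝ} (h0 : 0 < α) (h1 : α ≤ 1) :
    Good (Tα α) (1 - (Tα α)⁻¹) (((1 - X) * (2 * Tα α - 1))⁻¹) := by
  have hT0 : constantCoeff (Tα α) = 1 := by
    rw [← coeff_zero_eq_constantCoeff_apply, Tα, coeff_mk]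
    simp; exact h0.ne'
  have hpos : ∀ n, 0 < coeff n (Tα α) := by
    intro n
    rw [Tα, coeff_mk]
    positivity
  have hTB : Tα α * (1 - (1 - (Tα α)⁻¹)) = 1 := by
    have := PowerSeries.mul_inv_cancel (Tα α) (by rw [hT0]; exact one_ne_zero)
    linear_combination this
  have hG0 : constantCoeff (2 * Tα α - 1) = 1 := by
    rw [map_sub, map_mul, hT0, map_one]
    have : constantCoeff (2 : PowerSeries ℝ) = 2 := by
      exact map_ofNat constantCoeff 2
    rw [this]; norm_num
  have hG1 : ∀ n, coeff (n+1) (2 * Tα α - 1) = 2 * (α / ((n+1 : ℕ) + α)) := by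
    intro n
    have : (2 : PowerSeries ℝ) = C 2 := (map_ofNat C 2).symm
    rw [map_sub, coeff_one, if_neg (by omega), this, coeff_C_mul, Tα, coeff_mk]
    ring
  have hG0' : coeff 0 (2 * Tα α - 1) = 1 := by
    rw [coeff_zero_eq_constantCoeff_apply, hG0]
  have hne : constantCoeff ((1 - X) * (2 * Tα α - 1)) ≠ 0 := by
    rw [map_mul, hG0]; simp
  refine ⟨hT0, hpos, hTB, kaluza hT0 hpos hTB ?_, ?_, ?_, ?_⟩
  · intro n k hk
    obtain ⟨m, rfl⟩ := Nat.exists_eq_add_of_le hk
    simp only [Tα, coeff_mk]
    rw [show k + m + 1 - k = m + 1 by omega, show k + m - k = m by omega]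
    push_cast
    rw [div_mul_div_comm, div_mul_div_comm]
    apply div_le_div_of_nonneg_left (by positivity) (by positivity)
    have hk0 : (0 : ℝ) ≤ k := Nat.cast_nonneg _
    have hm0 : (0 : ℝ) ≤ m := Nat.cast_nonneg _
    nlinarith
  · have e : (1 - X) * (2 * Tα α - 1) = 1 - (1 - (1 - X) * (2 * Tα α - 1)) := by ring
    rw [e]
    apply NN_inv
    · intro n
      cases n with
      | zero =>
        rw [coeff_zero_eq_constantCoeff_apply, map_sub, map_mul, hG0]; simp
      | succ n =>
        rw [map_sub, coeff_one, if_neg (by omega), sub_mul, one_mul, map_sub, coeff_succ_X_mul]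
        cases n with
        | zero =>
          rw [hG1, hG0']
          have : α / (((0+1 : ℕ) : ℝ) + α) ≤ 1/2 := by
            rw [div_le_div_iff₀ (by positivity) (by norm_num)]
            push_cast
            linarith
          linarith
        | succ n =>
          rw [hG1, hG1]
          have : α / (((n+1+1 : ℕ) : ℝ) + α) ≤ α / (((n+1 : ℕ) : ℝ) + α) := by
            apply div_le_div_of_nonneg_left h0.le (by positivity)
            push_cast; linarith
          linarith
    · rw [map_sub, map_mul, hG0]; simp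
  · have h2 : ((1 - X) * (2 * Tα α - 1)) * ((1 - X) * (2 * Tα α - 1))⁻¹ = 1 :=
      PowerSeries.mul_inv_cancel _ hne
    have h3 := Ks_mul ℝ
    linear_combination Ks ℝ * h2 - ((1 - X) * (2 * Tα α - 1))⁻¹ * (2 * Tα α - 1) * h3
  · intro n
    cases n with
    | zero =>
      rw [coeff_zero_eq_constantCoeff_apply, map_mul, constantCoeff_D]; simp
    | succ n =>
      rw [sub_mul, one_mul, map_sub, coeff_succ_X_mul, coeff_D, coeff_D, hG1]
      cases n with
      | zero => simp; positivity
      | succ n =>
        rw [hG1]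
        have hn0 : (0 : ℝ) ≤ n := Nat.cast_nonneg _
        have : ((n+1 : ℕ) : ℝ) * (α / (((n+1 : ℕ) : ℝ) + α)) ≤
            ((n+1+1 : ℕ) : ℝ) * (α / (((n+1+1 : ℕ) : ℝ) + α)) := by
          rw [← mul_div_assoc, ← mul_div_assoc, div_le_div_iff₀ (by positivity) (by positivity)]
          push_cast
          nlinarith
        linarith

end Pool.Agent.Q139.Baz
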