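import Mathlib

namespace Pool.Agent.Q139.Baz
open PowerSeries Finset

section gen
variable {K : Type*} [Field K]

/-- `D = z d/dz` on formal power series. -/
noncomputable def D (P : PowerSeries K) : PowerSeries K := X * derivative K P

lemma coeff_D (P : PowerSeries K) (n : ℕ) : coeff n (D P) = n * coeff n P := by
  cases n with
  | zero => simp [D]
  | succ n =>
    simp only [D, coeff_succ_X_mul, coeff_derivative]
    push_cast; ring

lemma D_mul (P Q : PowerSeries K) : D (P * Q) = D P * Q + P * D Q := by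
  simp only [D, Derivation.leibniz, smul_eq_mul]; ring

lemma D_add (P Q : PowerSeries K) : D (P + Q) = D P + D Q := by
  simp only [D, map_add]; ring

lemma D_sub (P Q : PowerSeries K) : D (P - Q) = D P - D Q := by
  simp only [D, map_sub]; ring

lemma D_one : D (1 : PowerSeries K) = 0 := by
  simp [D]

lemma D_C (a : K) : D (C a : PowerSeries K) = 0 := by
  simp [D, derivative_C]

lemma D_C_mul (a : K) (P : PowerSeries K) : D (C a * P) = C a * D P := by
  rw [D_mul, D_C]; ring

lemma D_pow (P : PowerSeries K) (n : ℕ) : D (P ^ (n+1)) = C ((n : K)+1) * (P ^ n * D P) := by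
  induction n with
  | zero => simp
  | succ n ih =>
    rw [pow_succ, D_mul, ih]
    push_cast
    simp only [map_add, map_one, map_natCast]
    ring

lemma constantCoeff_D (P : PowerSeries K) : constantCoeff (D P) = 0 := by
  have := coeff_D P 0
  simpa using this

/-- `P` is the `γ`-th power of `H` (both with constant term one). -/
def IsPow (γ : K) (H P : PowerSeries K) : Prop :=
  constantCoeff P = 1 ∧ H * D P = C γ * (P * D H)

lemma isPow_one (H : PowerSeries K) (h : constantCoeff H = 1) : IsPow 1 H H := by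
  refine ⟨h, ?_⟩
  simp

lemma IsPow.mul {γ δ : K} {H P Q : PowerSeries K} (hP : IsPow γ H P) (hQ : IsPow δ H Q) :
    IsPow (γ + δ) H (P * Q) := by
  refine ⟨by simp [hP.1, hQ.1], ?_⟩
  rw [D_mul]
  have h1 := hP.2
  have h2 := hQ.2
  simp only [map_add]
  linear_combination Q * h1 + P * h2

lemma IsPow.base_mul {γ : K} {H G P Q : PowerSeries K} (hP : IsPow γ H P) (hQ : IsPow γ G Q) :
    IsPow γ (H * G) (P * Q) := by
  refine ⟨by simp [hP.1, hQ.1], ?_⟩
  rw [D_mul, D_mul]
  have h1 := hP.2
  have h2 := hQ.2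
  linear_combination G * Q * h1 + H * P * h2

lemma eq_one_of_D [CharZero K] {R : PowerSeries K} (h0 : constantCoeff R = 1) (h : D R = 0) : R = 1 := by
  ext n
  rcases Nat.eq_zero_or_pos n with rfl | hn
  · simpa using h0
  · have h1 := coeff_D R n
    rw [h] at h1
    simp only [map_zero] at h1
    have h2 : (n : K) ≠ 0 := by exact_mod_cast hn.ne'
    have h3 : coeff n R = 0 := by
      rcases mul_eq_zero.1 h1.symm with h | h
      · exact absurd h h2
      · exact h
    rw [h3, coeff_one, if_neg hn.ne']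

lemma IsPow.unique [CharZero K] {γ : K} {H P Q : PowerSeries K} (hH : constantCoeff H = 1)
    (hP : IsPow γ H P) (hQ : IsPow γ H Q) : P = Q := by
  have hQ0 : constantCoeff Q ≠ 0 := by rw [hQ.1]; exact one_ne_zero
  have hH0 : H ≠ 0 := by
    intro h
    rw [h] at hH
    simp at hH
  have hQi : Q * Q⁻¹ = 1 := PowerSeries.mul_inv_cancel Q hQ0
  have hQi0 : constantCoeff Q⁻¹ = 1 := by simp [hQ.1]
  have hDi : D Q * Q⁻¹ + Q * D Q⁻¹ = 0 := by
    rw [← D_mul, hQi, D_one]
  have h1 := hP.2
  have h2 := hQ.2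
  have key : H * D (P * Q⁻¹) = 0 := by
    rw [D_mul]
    have e1 : D Q⁻¹ = - (Q⁻¹ * Q⁻¹ * D Q) := by
      linear_combination Q⁻¹ * hDi - D Q⁻¹ * hQi
    rw [e1]
    linear_combination Q⁻¹ * h1 - P * Q⁻¹ * Q⁻¹ * h2 - C γ * P * D H * Q⁻¹ * hQi
  have hD : D (P * Q⁻¹) = 0 := by
    rcases mul_eq_zero.1 key with h | h
    · exact absurd h hH0
    · exact h
  have h3 : P * Q⁻¹ = 1 := eq_one_of_D (by simp [hP.1, hQ.1]) hD
  calc P = P * Q⁻¹ * Q := by rw [mul_assoc, mul_comm Q⁻¹, hQi, mul_one]
    _ = Q := by rw [h3, one_mul]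

lemma IsPow.inv {γ : K} {H P : PowerSeries K} (hH : constantCoeff H = 1) (hP : IsPow γ H P) :
    IsPow γ H⁻¹ P⁻¹ := by
  have hP0 : constantCoeff P ≠ 0 := by rw [hP.1]; exact one_ne_zero
  have hH0 : constantCoeff H ≠ 0 := by rw [hH]; exact one_ne_zero
  have hPi : P * P⁻¹ = 1 := PowerSeries.mul_inv_cancel P hP0
  have hHi : H * H⁻¹ = 1 := PowerSeries.mul_inv_cancel H hH0
  refine ⟨by simp [hP.1], ?_⟩
  have hDP : D P * P⁻¹ + P * D P⁻¹ = 0 := by rw [← D_mul, hPi, D_one]
  have hDH : D H * H⁻¹ + H * D H⁻¹ = 0 := by rw [← D_mul, hHi, D_one]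
  have e1 : D P⁻¹ = - (P⁻¹ * P⁻¹ * D P) := by
    linear_combination P⁻¹ * hDP - D P⁻¹ * hPi
  have e2 : D H⁻¹ = - (H⁻¹ * H⁻¹ * D H) := by
    linear_combination H⁻¹ * hDH - D H⁻¹ * hHi
  rw [e1, e2]
  have h1 := hP.2
  linear_combination (-(H⁻¹ * H⁻¹ * P⁻¹ * P⁻¹)) * h1 + (- C γ * D H * H⁻¹ * H⁻¹ * P⁻¹) * hPi
    + (H⁻¹ * P⁻¹ * P⁻¹ * D P) * hHi

/-- generalised binomial coefficients. -/
noncomputable def bin (γ : K) : ℕ → K
  | 0 => 1
  | (k+1) => bin γ k * (γ - k) / (k + 1)

/-- the truncated binomial sum `∑_{k ≤ N} bin γ k y^k`. -/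
noncomputable def bs (γ : K) (y : PowerSeries K) (N : ℕ) : PowerSeries K :=
  ∑ k ∈ range (N+1), C (bin γ k) * y ^ k

lemma bs_ode [CharZero K] (γ : K) (y : PowerSeries K) (N : ℕ) :
    (1 + y) * D (bs γ y N) - C γ * (bs γ y N * D y) =
      - (C ((N : K) + 1) * C (bin γ (N+1)) * y ^ N * D y) := by
  induction N with
  | zero =>
    simp [bs, bin, D_one]
  | succ N ih =>
    have e : bs γ y (N+1) = bs γ y N + C (bin γ (N+1)) * y ^ (N+1) := by
      simp only [bs]; rw [Finset.sum_range_succ _ (N+1)]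
    rw [e, D_add, D_C_mul, D_pow]
    have h1 : ((N : K) + 1 + 1) * bin γ (N+1+1) = bin γ (N+1) * (γ - ((N : K)+1)) := by
      have : ((N : K) + 1 + 1) ≠ 0 := by exact_mod_cast Nat.succ_ne_zero (N+1)
      rw [show bin γ (N+1+1) = bin γ (N+1) * (γ - ((N+1 : ℕ) : K)) / (((N+1 : ℕ) : K) + 1) from rfl]
      push_cast
      field_simp
    have h2 : C (((N+1 : ℕ) : K) + 1) * C (bin γ (N+1+1))
        = C (bin γ (N+1)) * (C γ - (C ((N : K)+1))) := by
      rw [← map_mul, ← map_sub, ← map_mul]
      push_cast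
      rw [h1]
    rw [h2]
    linear_combination ih

/-- the formal power `H^γ`. -/
noncomputable def pw (γ : K) (H : PowerSeries K) : PowerSeries K :=
  mk fun n => coeff n (bs γ (H - 1) n)

lemma coeff_pow_zero {y : PowerSeries K} (hy : constantCoeff y = 0) {n k : ℕ} (h : n < k) :
    coeff n (y ^ k) = 0 := by
  apply coeff_of_lt_order
  calc (n : ℕ∞) < k := by exact_mod_cast h
    _ ≤ (y ^ k).order := by
      apply le_order_pow_of_constantCoeff_eq_zero k hy

lemma coeff_bs {y : PowerSeries K} (γ : K) (hy : constantCoeff y = 0) {n N : ℕ} (h : n ≤ N) :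
    coeff n (bs γ y N) = coeff n (bs γ y n) := by
  induction N, h using Nat.le_induction with
  | base => rfl
  | succ N hN ih =>
    rw [← ih]
    simp only [bs]
    rw [Finset.sum_range_succ _ (N+1), map_add, coeff_C_mul, coeff_pow_zero hy (by omega)]
    ring

lemma coeff_pw {H : PowerSeries K} (γ : K) (hH : constantCoeff H = 1) {n N : ℕ} (h : n ≤ N) :
    coeff n (pw γ H) = coeff n (bs γ (H - 1) N) := by
  rw [pw, coeff_mk, coeff_bs γ (by simp [hH]) h]

lemma isPow_pw [CharZero K] (γ : K) {H : PowerSeries K} (hH : constantCoeff H = 1) :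
    IsPow γ H (pw γ H) := by
  have hy : constantCoeff (H - 1) = 0 := by simp [hH]
  constructor
  · have := coeff_pw (K := K) γ hH (le_refl 0)
    rw [coeff_zero_eq_constantCoeff_apply] at this
    rw [this]
    simp [bs, bin]
  · ext n
    have h1 : coeff n (H * D (pw γ H)) = coeff n (H * D (bs γ (H-1) n)) := by
      rw [coeff_mul, coeff_mul]
      apply Finset.sum_congr rfl
      intro p hp
      rw [HasAntidiagonal.mem_antidiagonal] at hp
      rw [coeff_D, coeff_D, coeff_pw γ hH (show p.2 ≤ n by omega)]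
    have h2 : coeff n (C γ * (pw γ H * D H)) = coeff n (C γ * (bs γ (H-1) n * D H)) := by
      rw [coeff_C_mul, coeff_C_mul, coeff_mul, coeff_mul]
      congr 1
      apply Finset.sum_congr rfl
      intro p hp
      rw [HasAntidiagonal.mem_antidiagonal] at hp
      rw [coeff_pw γ hH (show p.1 ≤ n by omega)]
    rw [h1, h2]
    have h3 := congrArg (coeff n) (bs_ode γ (H-1) n)
    have h4 : D (H - 1) = D H := by rw [D_sub, D_one, sub_zero]
    have h5 : coeff n (C ((n : K) + 1) * C (bin γ (n+1)) * (H-1) ^ n * D (H - 1)) = 0 := by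
      have : coeff n ((H-1) ^ n * D (H - 1)) = 0 := by
        apply coeff_of_lt_order
        have h6 : (n : ℕ∞) ≤ ((H-1)^n).order := le_order_pow_of_constantCoeff_eq_zero n hy
        have h7 : (1 : ℕ∞) ≤ (D (H-1)).order :=
          one_le_order_iff_constCoeff_eq_zero.2 (constantCoeff_D _)
        calc (n : ℕ∞) < (n : ℕ∞) + 1 := by exact_mod_cast Nat.lt_succ_self n
          _ ≤ ((H-1)^n).order + (D (H-1)).order := add_le_add h6 h7
          _ ≤ _ := by rw [order_mul]
      rw [mul_assoc, ← map_mul, coeff_C_mul, this, mul_zero]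
    rw [map_neg, h5, h4, map_sub, neg_zero] at h3
    have h8 : (1 : PowerSeries K) + (H - 1) = H := by ring
    rw [h8] at h3
    exact sub_eq_zero.1 h3

lemma constantCoeff_pw [CharZero K] (γ : K) {H : PowerSeries K} (hH : constantCoeff H = 1) :
    constantCoeff (pw γ H) = 1 := (isPow_pw γ hH).1

lemma pw_add [CharZero K] (γ δ : K) {H : PowerSeries K} (hH : constantCoeff H = 1) :
    pw (γ + δ) H = pw γ H * pw δ H :=
  IsPow.unique hH (isPow_pw _ hH) ((isPow_pw γ hH).mul (isPow_pw δ hH))

lemma pw_one [CharZero K] {H : PowerSeries K} (hH : constantCoeff H = 1) :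
    pw 1 H = H :=
  IsPow.unique hH (isPow_pw _ hH) (isPow_one H hH)

lemma pw_mul [CharZero K] (γ : K) {H G : PowerSeries K} (hH : constantCoeff H = 1)
    (hG : constantCoeff G = 1) :
    pw γ (H * G) = pw γ H * pw γ G :=
  IsPow.unique (H := H * G) (by simp [hH, hG]) (isPow_pw _ (by simp [hH, hG]))
    ((isPow_pw γ hH).base_mul (isPow_pw γ hG))

lemma pw_inv [CharZero K] (γ : K) {H : PowerSeries K} (hH : constantCoeff H = 1) :
    pw γ H⁻¹ = (pw γ H)⁻¹ :=
  IsPow.unique (H := H⁻¹) (by simp [hH]) (isPow_pw _ (by simp [hH]))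
    ((isPow_pw γ hH).inv hH)

lemma D_rescale (a : K) (P : PowerSeries K) : D (rescale a P) = rescale a (D P) := by
  ext n
  rw [coeff_D, coeff_rescale, coeff_rescale, coeff_D]; ring

lemma rescale_C' (a b : K) : rescale a (C b : PowerSeries K) = C b := by
  ext n
  rw [coeff_rescale, coeff_C]
  split_ifs with h
  · simp [h]
  · simp

lemma constantCoeff_rescale (a : K) (P : PowerSeries K) :
    constantCoeff (rescale a P) = constantCoeff P := by
  rw [← coeff_zero_eq_constantCoeff_apply, coeff_rescale]; simp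

lemma pw_rescale [CharZero K] (γ a : K) {H : PowerSeries K} (hH : constantCoeff H = 1) :
    pw γ (rescale a H) = rescale a (pw γ H) := by
  have h0 : constantCoeff (rescale a H) = 1 := by rw [constantCoeff_rescale, hH]
  refine IsPow.unique h0 (isPow_pw _ h0) ⟨?_, ?_⟩
  · rw [constantCoeff_rescale, constantCoeff_pw γ hH]
  · rw [D_rescale, D_rescale, ← map_mul, (isPow_pw γ hH).2, map_mul, rescale_C', map_mul]

/-- `H^γ` up to order `n` depends on `H` up to order `n` only. -/
lemma coeff_pw_congr [CharZero K] (γ : K) {H G : PowerSeries K} (hH : constantCoeff H = 1)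
    (hG : constantCoeff G = 1) (n : ℕ) (h : ∀ k ≤ n, coeff k H = coeff k G) :
    coeff n (pw γ H) = coeff n (pw γ G) := by
  induction n using Nat.strong_induction_on with
  | _ n ih =>
    rcases Nat.eq_zero_or_pos n with rfl | hn
    · rw [coeff_zero_eq_constantCoeff_apply, coeff_zero_eq_constantCoeff_apply,
        constantCoeff_pw γ hH, constantCoeff_pw γ hG]
    · have key : ∀ F : PowerSeries K, constantCoeff F = 1 →
          (n : K) * coeff n (pw γ F) = γ * (n * coeff n F + ∑ p ∈ (antidiagonal n).erase (0, n),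
              coeff p.1 (pw γ F) * (p.2 * coeff p.2 F))
            - ∑ p ∈ (antidiagonal n).erase (0, n), coeff p.1 F * (p.2 * coeff p.2 (pw γ F)) := by
        intro F hF
        have h1 := congrArg (coeff n) (isPow_pw γ hF).2
        rw [coeff_C_mul, coeff_mul, coeff_mul] at h1
        have hm : (0, n) ∈ antidiagonal n := by simp
        rw [← Finset.add_sum_erase _ _ hm, ← Finset.add_sum_erase _ _ hm] at h1
        simp only [coeff_D] at h1
        rw [coeff_zero_eq_constantCoeff_apply, coeff_zero_eq_constantCoeff_apply, hF,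
          constantCoeff_pw γ hF] at h1
        linear_combination h1
      have e1 := key H hH
      have e2 := key G hG
      have hs1 : ∑ p ∈ (antidiagonal n).erase (0, n), coeff p.1 (pw γ H) * (p.2 * coeff p.2 H)
          = ∑ p ∈ (antidiagonal n).erase (0, n), coeff p.1 (pw γ G) * (p.2 * coeff p.2 G) := by
        apply Finset.sum_congr rfl
        intro p hp
        rw [mem_erase, HasAntidiagonal.mem_antidiagonal] at hp
        obtain ⟨hp1, hp2⟩ := hp
        rcases Nat.eq_zero_or_pos p.2 with h0 | h0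
        · simp [h0]
        · have : p.1 < n := by omega
          rw [ih p.1 this (fun k hk => h k (by omega)), h p.2 (by omega)]
      have hs2 : ∑ p ∈ (antidiagonal n).erase (0, n), coeff p.1 H * (p.2 * coeff p.2 (pw γ H))
          = ∑ p ∈ (antidiagonal n).erase (0, n), coeff p.1 G * (p.2 * coeff p.2 (pw γ G)) := by
        apply Finset.sum_congr rfl
        intro p hp
        rw [mem_erase, HasAntidiagonal.mem_antidiagonal] at hp
        obtain ⟨hp1, hp2⟩ := hp
        have hne : p.1 ≠ 0 := by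
          intro h0
          apply hp1
          ext
          · exact h0
          · simp; omega
        have : p.2 < n := by omega
        rw [ih p.2 this (fun k hk => h k (by omega)), h p.1 (by omega)]
      rw [hs1, hs2, h n le_rfl, ← e2] at e1
      have hn' : (n : K) ≠ 0 := by exact_mod_cast hn.ne'
      exact mul_left_cancel₀ hn' e1

end gen

end Pool.Agent.Q139.Baz
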