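import Pool.Agent.Q139.Baz.Core

namespace Pool.Agent.Q139.Baz
open PowerSeries Finset

/-- Taylor coefficient at `0` -/
noncomputable def tc (f : ℂ → ℂ) (n : ℕ) : ℂ := iteratedDeriv n f 0 / (n.factorial : ℂ)

/-- Taylor series at `0` -/
noncomputable def ts (f : ℂ → ℂ) : PowerSeries ℂ := PowerSeries.mk (tc f)

lemma coeff_ts (f : ℂ → ℂ) (n : ℕ) : coeff n (ts f) = tc f n := by rw [ts, coeff_mk]

lemma tc_zero (f : ℂ → ℂ) : tc f 0 = f 0 := by simp [tc]

lemma constantCoeff_ts (f : ℂ → ℂ) : constantCoeff (ts f) = f 0 := by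
  rw [← coeff_zero_eq_constantCoeff_apply, coeff_ts, tc_zero]

lemma ts_congr {f g : ℂ → ℂ} (h : f =ᶠ[nhds 0] g) : ts f = ts g := by
  ext n
  rw [coeff_ts, coeff_ts, tc, tc, h.iteratedDeriv_eq n]

lemma ts_mul {f g : ℂ → ℂ} (hf : AnalyticAt ℂ f 0) (hg : AnalyticAt ℂ g 0) :
    ts (fun z => f z * g z) = ts f * ts g := by
  ext n
  rw [coeff_ts, coeff_mul, tc, iteratedDeriv_fun_mul hf.contDiffAt hg.contDiffAt,
    Finset.Nat.sum_antidiagonal_eq_sum_range_succ (fun a b => coeff a (ts f) * coeff b (ts g)) n,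
    Finset.sum_div]
  apply Finset.sum_congr rfl
  intro k hk
  rw [mem_range] at hk
  have hk' : k ≤ n := by omega
  simp only [coeff_ts, tc]
  have h1 : ((n.choose k : ℕ) : ℂ) * (k.factorial : ℂ) * ((n-k).factorial : ℂ) = n.factorial := by
    exact_mod_cast Nat.choose_mul_factorial_mul_factorial hk'
  have h2 : (k.factorial : ℂ) ≠ 0 := by exact_mod_cast k.factorial_ne_zero
  have h3 : ((n-k).factorial : ℂ) ≠ 0 := by exact_mod_cast (n-k).factorial_ne_zero
  have h4 : (n.factorial : ℂ) ≠ 0 := by exact_mod_cast n.factorial_ne_zero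
  rw [div_mul_div_comm, div_eq_div_iff h4 (mul_ne_zero h2 h3), ← h1]
  ring

lemma derivative_ts (f : ℂ → ℂ) : derivative ℂ (ts f) = ts (deriv f) := by
  ext n
  rw [coeff_derivative, coeff_ts, coeff_ts, tc, tc, iteratedDeriv_succ', Nat.factorial_succ]
  have h4 : (n.factorial : ℂ) ≠ 0 := by exact_mod_cast n.factorial_ne_zero
  have h5 : (n : ℂ) + 1 ≠ 0 := by exact_mod_cast Nat.succ_ne_zero n
  push_cast
  field_simp

lemma ts_id : ts (fun z => z) = X := by
  ext n
  rw [coeff_ts, coeff_X, tc, iteratedDeriv_fun_id_zero]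
  split_ifs with h
  · rw [h]; simp
  · simp

lemma ana_id : AnalyticAt ℂ (fun z : ℂ => z) 0 := analyticAt_id

lemma D_ts {f : ℂ → ℂ} (hf : AnalyticAt ℂ f 0) : D (ts f) = ts (fun z => z * deriv f z) := by
  rw [ts_mul ana_id hf.deriv, ts_id, D, derivative_ts]

lemma ts_const_mul {f : ℂ → ℂ} (hf : AnalyticAt ℂ f 0) (c : ℂ) :
    ts (fun z => c * f z) = C c * ts f := by
  rw [ts_mul analyticAt_const hf]
  congr 1
  ext n
  rw [coeff_ts, tc, coeff_C, iteratedDeriv_const]
  split_ifs with h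
  · rw [h]; simp
  · simp

lemma ts_add {f g : ℂ → ℂ} (hf : AnalyticAt ℂ f 0) (hg : AnalyticAt ℂ g 0) :
    ts (fun z => f z + g z) = ts f + ts g := by
  ext n
  rw [map_add, coeff_ts, coeff_ts, coeff_ts, tc, tc, tc,
    iteratedDeriv_fun_add hf.contDiffAt hg.contDiffAt, add_div]

/-- `ℓ` is the analytic logarithm of `f(z)/z` on the unit disc with `ℓ 0 = 0`. -/
def LogBranch (f l : ℂ → ℂ) : Prop :=
  DifferentiableOn ℂ l (Metric.ball 0 1) ∧ l 0 = 0 ∧
    ∀ z ∈ Metric.ball (0 : ℂ) 1, f z = z * Complex.exp (l z)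

section
variable {f l : ℂ → ℂ}

lemma zero_mem : (0 : ℂ) ∈ Metric.ball (0 : ℂ) 1 := Metric.mem_ball_self one_pos

lemma ball_nhds : Metric.ball (0 : ℂ) 1 ∈ nhds (0 : ℂ) := Metric.ball_mem_nhds 0 one_pos

lemma anal {g : ℂ → ℂ} (hg : DifferentiableOn ℂ g (Metric.ball 0 1)) {z : ℂ}
    (hz : z ∈ Metric.ball (0 : ℂ) 1) : AnalyticAt ℂ g z :=
  hg.analyticAt (Metric.isOpen_ball.mem_nhds hz)

lemma anal_exp {g : ℂ → ℂ} (hg : DifferentiableOn ℂ g (Metric.ball 0 1)) (c : ℂ) {z : ℂ}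
    (hz : z ∈ Metric.ball (0 : ℂ) 1) : AnalyticAt ℂ (fun w => Complex.exp (c * g w)) z :=
  (analyticAt_const.mul (anal hg hz)).cexp

lemma deriv_exp_mul {g : ℂ → ℂ} (hg : DifferentiableOn ℂ g (Metric.ball 0 1)) (c : ℂ) {z : ℂ}
    (hz : z ∈ Metric.ball (0 : ℂ) 1) :
    deriv (fun w => Complex.exp (c * g w)) z = Complex.exp (c * g z) * (c * deriv g z) := by
  have h1 : HasDerivAt g (deriv g z) z := (anal hg hz).differentiableAt.hasDerivAt
  exact ((h1.const_mul c).cexp).deriv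

lemma ts_f (h : LogBranch f l) : ts f = X * ts (fun z => Complex.exp (1 * l z)) := by
  rw [← ts_id, ← ts_mul ana_id (anal_exp h.1 1 zero_mem)]
  apply ts_congr
  filter_upwards [ball_nhds] with z hz
  rw [h.2.2 z hz, one_mul]

lemma isPow_exp (h : LogBranch f l) {a : ℝ} (ha : a ≠ 0) (c : ℝ) :
    IsPow ((c / a : ℝ) : ℂ) (ts (fun z => Complex.exp (a * l z)))
      (ts (fun z => Complex.exp (c * l z))) := by
  constructor
  · rw [constantCoeff_ts, h.2.1]; simp
  · have hF := anal_exp h.1 c zero_mem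
    have hH := anal_exp h.1 a zero_mem
    have hzF : AnalyticAt ℂ (fun z : ℂ => z * deriv (fun w => Complex.exp (c * l w)) z) 0 :=
      analyticAt_id.mul hF.deriv
    have hzH : AnalyticAt ℂ (fun z : ℂ => z * deriv (fun w => Complex.exp (a * l w)) z) 0 :=
      analyticAt_id.mul hH.deriv
    have hm : AnalyticAt ℂ (fun z : ℂ => Complex.exp (c * l z) *
        (z * deriv (fun w => Complex.exp (a * l w)) z)) 0 := hF.mul hzH
    rw [D_ts hF, D_ts hH, ← ts_mul hH hzF, ← ts_mul hF hzH, ← ts_const_mul hm]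
    apply ts_congr
    filter_upwards [ball_nhds] with z hz
    rw [deriv_exp_mul h.1 c hz, deriv_exp_mul h.1 a hz]
    have : (a : ℂ) ≠ 0 := by exact_mod_cast ha
    push_cast
    field_simp

/-- the derivative of `f = z exp ℓ`. -/
lemma deriv_f (h : LogBranch f l) {z : ℂ} (hz : z ∈ Metric.ball (0 : ℂ) 1) :
    deriv f z = Complex.exp (l z) * (1 + z * deriv l z) := by
  have h1 : HasDerivAt l (deriv l z) z := (anal h.1 hz).differentiableAt.hasDerivAt
  have h2 : HasDerivAt (fun w => w * Complex.exp (l w))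
      (1 * Complex.exp (l z) + z * (Complex.exp (l z) * deriv l z)) z :=
    (hasDerivAt_id z).mul h1.cexp
  have h3 : f =ᶠ[nhds z] fun w => w * Complex.exp (l w) := by
    filter_upwards [Metric.isOpen_ball.mem_nhds hz] with w hw
    exact h.2.2 w hw
  rw [h3.deriv_eq, h2.deriv]; ring

lemma p_eq (h : LogBranch f l) (a : ℝ) (ha : a ≠ 0) {z : ℂ} (hz : z ∈ Metric.ball (0 : ℂ) 1) :
    Complex.exp (((a : ℂ) - 1) * l z) * deriv f z =
      Complex.exp (a * l z) + ((1 / a : ℝ) : ℂ) *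
        (z * deriv (fun w => Complex.exp (a * l w)) z) := by
  rw [deriv_f h hz, deriv_exp_mul h.1 a hz, ← mul_assoc, ← Complex.exp_add,
    show ((a : ℂ) - 1) * l z + l z = a * l z by ring]
  have : (a : ℂ) ≠ 0 := by exact_mod_cast ha
  push_cast
  field_simp

lemma p_diff (h : LogBranch f l) (a : ℝ) : DifferentiableOn ℂ
    (fun z => Complex.exp (((a : ℂ) - 1) * l z) * deriv f z) (Metric.ball 0 1) := by
  have hl := h.1
  have h1 : DifferentiableOn ℂ (fun z => Complex.exp (((a : ℂ) - 1) * l z))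
      (Metric.ball 0 1) := (hl.const_mul _).cexp
  have h2 : DifferentiableOn ℂ (deriv f) (Metric.ball 0 1) := by
    have h3 : DifferentiableOn ℂ f (Metric.ball 0 1) := by
      have : DifferentiableOn ℂ (fun w => w * Complex.exp (l w)) (Metric.ball 0 1) :=
        differentiableOn_id.mul hl.cexp
      exact this.congr h.2.2
    exact h3.deriv Metric.isOpen_ball
  exact h1.mul h2

/-- `H_k = α/(k+α) p_k`. -/
lemma coeff_H (h : LogBranch f l) {a : ℝ} (ha : 0 < a) (k : ℕ) :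
    tc (fun z => Complex.exp (a * l z)) k = ((a / (k + a) : ℝ) : ℂ) *
      tc (fun z => Complex.exp (((a : ℂ) - 1) * l z) * deriv f z) k := by
  have hH := anal_exp h.1 a zero_mem
  have hzH : AnalyticAt ℂ (fun z : ℂ => z * deriv (fun w => Complex.exp (a * l w)) z) 0 :=
    analyticAt_id.mul hH.deriv
  have e1 : ts (fun z => Complex.exp (((a : ℂ) - 1) * l z) * deriv f z) =
      ts (fun z => Complex.exp (a * l z)) + C ((1 / a : ℝ) : ℂ) *
        D (ts (fun z => Complex.exp (a * l z))) := by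
    have hm : AnalyticAt ℂ (fun z : ℂ => ((1 / a : ℝ) : ℂ) *
        (z * deriv (fun w => Complex.exp (a * l w)) z)) 0 := analyticAt_const.mul hzH
    rw [D_ts hH, ← ts_const_mul hzH, ← ts_add hH hm]
    apply ts_congr
    filter_upwards [ball_nhds] with z hz
    exact p_eq h a ha.ne' hz
  have e2 := congrArg (coeff k) e1
  rw [map_add, coeff_C_mul, coeff_D, coeff_ts, coeff_ts] at e2
  rw [e2]
  have ha' : (a : ℂ) ≠ 0 := by exact_mod_cast ha.ne'
  have hk : (k : ℂ) + a ≠ 0 := by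
    have : (0 : ℝ) < k + a := by positivity
    exact_mod_cast this.ne'
  push_cast
  field_simp
  ring

end

end Pool.Agent.Q139.Baz
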